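import Pool.Agent.W2helper47.RL.Trans

set_option autoImplicit false

/-!
# Points of small height in `K(Γ)` give transverse subvarieties with bounded obstruction index
-/

namespace Pool.Agent.W2helper47.RL

open MvPolynomial Filter Topology

variable {n : ℕ}

lemma exists_primitive (χ : Fin n → ℤ) (hχ : χ ≠ 0) :
    ∃ (k : ℤ) (χ' a : Fin n → ℤ), k ≠ 0 ∧ χ = k • χ' ∧ ∑ j, a j * χ' j = 1 := by
  set I : Ideal ℤ := Ideal.span (Set.range χ) with hI
  obtain ⟨k, hk⟩ := (IsPrincipalIdealRing.principal I).principal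
  have hk' : I = Ideal.span {k} := hk
  have h1 : ∀ j, ∃ c, χ j = k * c := by
    intro j
    have : χ j ∈ I := Ideal.subset_span ⟨j, rfl⟩
    rw [hk', Ideal.mem_span_singleton'] at this
    obtain ⟨c, hc⟩ := this
    exact ⟨c, by rw [← hc, mul_comm]⟩
  choose χ' hχ' using h1
  have hkI : k ∈ I := by
    rw [hk']
    exact Ideal.mem_span_singleton_self k
  have h2 := (Submodule.mem_span_range_iff_exists_fun ℤ).mp hkI
  obtain ⟨a, ha⟩ := h2
  have hk0 : k ≠ 0 := by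
    rintro rfl
    apply hχ
    funext j
    rw [hχ' j, zero_mul, Pi.zero_apply]
  refine ⟨k, χ', a, hk0, funext fun j => by rw [hχ' j, Pi.smul_apply, smul_eq_mul], ?_⟩
  apply mul_left_cancel₀ hk0
  rw [mul_one, Finset.mul_sum]
  calc ∑ j, k * (a j * χ' j) = ∑ j, a j • χ j := by
        refine Finset.sum_congr rfl fun j _ => ?_
        rw [hχ' j, smul_eq_mul]
        ring
    _ = k := ha

lemma exists_root_unit (u : Qbˣ) (m : ℕ) (hm : 0 < m) : ∃ v : Qbˣ, v ^ m = u := by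
  obtain ⟨z, hz⟩ := IsAlgClosed.exists_pow_nat_eq (u : Qb) hm
  have hz0 : z ≠ 0 := by
    rintro rfl
    rw [zero_pow hm.ne'] at hz
    exact u.ne_zero hz.symm
  refine ⟨Units.mk0 z hz0, Units.ext ?_⟩
  rw [Units.val_pow_eq_pow_val, Units.val_mk0, hz]

lemma exists_root (x : Torus n) (m : ℕ) (hm : 0 < m) : ∃ y : Torus n, y ^ m = x := by
  choose y hy using fun i => exists_root_unit (x i) m hm
  exact ⟨y, funext fun i => hy i⟩

lemma subset_sat (Γ : Subgroup (Torus n)) {g : Torus n} (hg : g ∈ Γ) : g ∈ sat Γ :=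
  ⟨1, one_pos, by rwa [pow_one]⟩

lemma root_mem_sat (Γ : Subgroup (Torus n)) (g y : Torus n) (m : ℕ) (hm : 0 < m)
    (hg : g ∈ sat Γ) (hy : y ^ m = g) : y ∈ sat Γ := by
  obtain ⟨k, hk, h⟩ := hg
  refine ⟨m * k, Nat.mul_pos hm hk, ?_⟩
  rw [pow_mul, hy]
  exact h

lemma inv_mem_sat (Γ : Subgroup (Torus n)) (g : Torus n) (hg : g ∈ sat Γ) : g⁻¹ ∈ sat Γ := by
  obtain ⟨k, hk, h⟩ := hg
  refine ⟨k, hk, ?_⟩
  rw [inv_pow]
  exact Γ.inv_mem h

/-- the values of a nonzero multiple of a character on the saturation -/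
lemma chr_smul_sat (Γ : Subgroup (Torus n)) (χ : Fin n → ℤ) (k : ℤ) (hk : k ≠ 0) (g : Torus n)
    (hg : g ∈ sat Γ) : ∃ g' ∈ sat Γ, chr (k • χ) g' = chr χ g := by
  obtain ⟨y, hy⟩ := exists_root g k.natAbs (Int.natAbs_pos.mpr hk)
  have hys := root_mem_sat Γ g y _ (Int.natAbs_pos.mpr hk) hg hy
  obtain ⟨m, hm | hm⟩ := k.eq_nat_or_neg
  · refine ⟨y, hys, ?_⟩
    rw [hm, Int.natAbs_natCast] at hy
    rw [hm, chr_zsmul, ← hy, map_pow, zpow_natCast]
  · refine ⟨y⁻¹, inv_mem_sat Γ y hys, ?_⟩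
    rw [hm, Int.natAbs_neg, Int.natAbs_natCast] at hy
    rw [hm, chr_zsmul, ← hy, map_pow, map_inv, zpow_neg, zpow_natCast, inv_pow, inv_inv]

/-- **Small points of `K(Γ)` outside the image of the saturation under a character** give proper
transverse subvarieties with bounded obstruction index and small essential minimum. -/
theorem family (K : IntermediateField ℚ Qb) (Γ : Subgroup (Torus n)) (χ : Fin n → ℤ)
    (hχ : χ ≠ 0) : ∃ D : ℝ, 0 < D ∧ ∀ θ : Qbˣ, (θ : Qb) ∈ fieldOf K Γ →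
      (∀ g ∈ sat Γ, chr χ g ≠ θ) → ∃ V : Set (Torus n), IsSubvariety V ∧ V ≠ Set.univ ∧
        Transverse Γ V ∧ obstr (fieldOf K Γ) V ≤ D ∧ essMin V ≤ D * h1 θ := by
  obtain ⟨k, χ', a, hk, rfl, ha⟩ := exists_primitive χ hχ
  set D1 : ℝ := (n - 1).factorial * ∑ j, ((χ' j).natAbs : ℝ) with hD1
  set D2 : ℝ := ∑ j, ((a j).natAbs : ℝ) with hD2
  have hD1' : 0 ≤ D1 := by positivity
  have hD2' : 0 ≤ D2 := by positivity
  refine ⟨D1 + D2 + 1, by positivity, fun θ hθ hθΓ => ?_⟩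
  refine ⟨hyp χ' θ, subvariety_hyp χ' a ha θ, hyp_ne_univ χ' a ha θ,
    transverse_hyp Γ χ' a ha θ fun g hg h => ?_, ?_, ?_⟩
  · obtain ⟨g', hg', h'⟩ := chr_smul_sat Γ χ' k hk g hg
    exact hθΓ g' hg' (h'.trans h)
  · have := obstr_hyp_le (fieldOf K Γ) χ' a ha θ hθ
    linarith
  · have h2 := essMin_hyp_le χ' a ha θ
    have h3 : D2 * h1 θ ≤ (D1 + D2 + 1) * h1 θ :=
      mul_le_mul_of_nonneg_right (by linarith) (h1_nonneg θ)
    exact h2.trans h3

/-- in a field generated by the coordinates -/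
lemma coord_mem_fieldOf (K : IntermediateField ℚ Qb) (Γ : Subgroup (Torus n)) (g : Torus n)
    (hg : g ∈ Γ) (i : Fin n) : (g i : Qb) ∈ fieldOf K Γ := by
  have h1 : IntermediateField.adjoin ℚ {y | ∃ g ∈ Γ, ∃ i, y = (g i : Qb)} ≤ fieldOf K Γ :=
    le_sup_right
  exact h1 (IntermediateField.subset_adjoin _ _ ⟨g, hg, i, rfl⟩)

/-- **Saturated groups.** If `γ i` is not a value of the character `χ ≠ 0` on the saturated group
`Γ`, where `γ ∈ Γ`, then there are transverse subvarieties with bounded obstruction index and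
arbitrarily small essential minimum. -/
theorem family_sat (K : IntermediateField ℚ Qb) (Γ : Subgroup (Torus n))
    (hΓ : sat Γ ⊆ (Γ : Set (Torus n))) (χ : Fin n → ℤ) (hχ : χ ≠ 0) (γ : Torus n) (hγ : γ ∈ Γ)
    (i : Fin n) (h : ∀ g ∈ Γ, chr χ g ≠ γ i) :
    ∃ D : ℝ, 0 < D ∧ ∀ ε : ℝ, 0 < ε → ∃ V : Set (Torus n), IsSubvariety V ∧ V ≠ Set.univ ∧
      Transverse Γ V ∧ obstr (fieldOf K Γ) V ≤ D ∧ essMin V < ε := by
  obtain ⟨D, hD, hfam⟩ := family K Γ χ hχ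
  refine ⟨D, hD, fun ε hε => ?_⟩
  obtain ⟨m, hm⟩ := exists_nat_gt (D * h1 (γ i) / ε)
  obtain ⟨y, hy⟩ := exists_root γ (m + 1) (Nat.succ_pos m)
  have hyΓ : y ∈ Γ := hΓ (root_mem_sat Γ γ y _ (Nat.succ_pos m) (subset_sat Γ hγ) hy)
  have hyi : y i ^ (m + 1) = γ i := by rw [← hy, Pi.pow_apply]
  have hh : ((m : ℝ) + 1) * h1 (y i) = h1 (γ i) := by
    rw [← hyi, h1_pow]
    push_cast
    ring
  obtain ⟨V, hV1, hV2, hV3, hV4, hV5⟩ := hfam (y i) (coord_mem_fieldOf K Γ y hyΓ i)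
    fun g hg hge => h (g ^ (m + 1)) (Γ.pow_mem (hΓ hg) _) (by rw [map_pow, hge, hyi])
  refine ⟨V, hV1, hV2, hV3, hV4, lt_of_le_of_lt hV5 ?_⟩
  rw [div_lt_iff₀ hε] at hm
  have h2 : 0 ≤ h1 (y i) := h1_nonneg _
  have h3 : ((m : ℝ) + 1) * (D * h1 (y i)) < ((m : ℝ) + 1) * ε := by
    calc ((m : ℝ) + 1) * (D * h1 (y i)) = D * (((m : ℝ) + 1) * h1 (y i)) := by ring
      _ = D * h1 (γ i) := by rw [hh]
      _ < m * ε := hm
      _ ≤ ((m : ℝ) + 1) * ε := by nlinarith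
  exact lt_of_mul_lt_mul_left h3 (by positivity)

/-- a bounded family with arbitrarily small essential minimum contradicts the Lehmer property -/
lemma not_lehmer_of_family (K : IntermediateField ℚ Qb) (Γ : Subgroup (Torus n)) (D : ℝ)
    (hD : 0 < D) (h : ∀ ε : ℝ, 0 < ε → ∃ V : Set (Torus n), IsSubvariety V ∧ V ≠ Set.univ ∧
      Transverse Γ V ∧ obstr (fieldOf K Γ) V ≤ D ∧ essMin V < ε) : ¬ IsLehmer K Γ := by
  rintro ⟨c, hc, hL⟩
  obtain ⟨V, hV1, hV2, hV3, hV4, hV5⟩ := h (c / D) (by positivity)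
  have h2 := hL V hV1 hV2 hV3
  have h3 := essMin_nonneg V hV1.2.1
  have h4 : obstr (fieldOf K Γ) V * essMin V ≤ D * essMin V :=
    mul_le_mul_of_nonneg_right hV4 h3
  rw [lt_div_iff₀ hD] at hV5
  linarith

/-- **Necessary condition.** If `Γ` is a Lehmer group, then for every nonzero character `χ` all the
points of `K(Γ)` of sufficiently small height are values of `χ` on the saturation of `Γ`. -/
theorem small_mem (K : IntermediateField ℚ Qb) (Γ : Subgroup (Torus n)) (hL : IsLehmer K Γ)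
    (χ : Fin n → ℤ) (hχ : χ ≠ 0) : ∃ ε : ℝ, 0 < ε ∧ ∀ θ : Qbˣ, (θ : Qb) ∈ fieldOf K Γ →
      h1 θ < ε → ∃ g ∈ sat Γ, chr χ g = θ := by
  obtain ⟨D, hD, hfam⟩ := family K Γ χ hχ
  obtain ⟨c, hc, hL⟩ := hL
  refine ⟨c / (D * D), by positivity, fun θ hθ hsmall => ?_⟩
  by_contra hcon
  push Not at hcon
  obtain ⟨V, hV1, hV2, hV3, hV4, hV5⟩ := hfam θ hθ hcon
  have h2 := hL V hV1 hV2 hV3
  have h3 := essMin_nonneg V hV1.2.1
  have h4 : obstr (fieldOf K Γ) V * essMin V ≤ D * (D * h1 θ) :=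
    mul_le_mul hV4 hV5 h3 hD.le
  rw [lt_div_iff₀ (by positivity)] at hsmall
  nlinarith

/-- **Necessary condition, saturated groups.** -/
theorem values_of_lehmer (K : IntermediateField ℚ Qb) (Γ : Subgroup (Torus n))
    (hΓ : sat Γ ⊆ (Γ : Set (Torus n))) (hL : IsLehmer K Γ) (χ : Fin n → ℤ) (hχ : χ ≠ 0)
    (γ : Torus n) (hγ : γ ∈ Γ) (i : Fin n) : ∃ g ∈ Γ, chr χ g = γ i := by
  by_contra hcon
  push Not at hcon
  obtain ⟨D, hD, hfam⟩ := family_sat K Γ hΓ χ hχ γ hγ i hcon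
  exact not_lehmer_of_family K Γ D hD hfam hL

end Pool.Agent.W2helper47.RL
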