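import Mathlib

set_option autoImplicit false

/-!
# The Lehmer property of subgroups of a torus

All points are points of the torus `G_m^n` over an algebraic closure of `ℚ`.
The definitions follow the problem `MP_187c26_nt` for `G = G_m^n`, `𝓛 = O(1, …, 1)` on
`(ℙ¹)^n`: essential minimum, obstruction index, `Γ`-torsion subvarieties, `Γ`-transverse
subvarieties and Lehmer groups.
-/

namespace Pool.Agent.W2helper47.RL

open MvPolynomial Filter Topology

/-- an algebraic closure of `ℚ` -/
abbrev Qb : Type := AlgebraicClosure ℚ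

/-- the group of points of the torus `G_m^n` -/
abbrev Torus (n : ℕ) : Type := Fin n → Qbˣ

variable {n : ℕ}

/-- the coordinates of a point, as algebraic numbers -/
def coord (x : Torus n) : Fin n → Qb := fun i => (x i : Qb)

/-- Zariski closed subsets of the torus which are defined over the field `L`: the sets of common
zeros in the torus of sets of polynomials with coefficients in `L` -/
def ClosedOver (L : IntermediateField ℚ Qb) (Z : Set (Torus n)) : Prop :=
  ∃ S : Set (MvPolynomial (Fin n) L), Z = {x | ∀ P ∈ S, aeval (coord x) P = 0}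

/-- Zariski closed subsets of the torus -/
def Closed (Z : Set (Torus n)) : Prop :=
  ∃ S : Set (MvPolynomial (Fin n) Qb), Z = {x | ∀ P ∈ S, aeval (coord x) P = 0}

/-- subvarieties: irreducible closed subsets -/
def IsSubvariety (V : Set (Torus n)) : Prop :=
  Closed V ∧ V.Nonempty ∧ ∀ Z Z' : Set (Torus n), Closed Z → Closed Z' → V ⊆ Z ∪ Z' →
    V ⊆ Z ∨ V ⊆ Z'

/-- the height of a point: the sum of the absolute logarithmic Weil heights of the coordinates -/
noncomputable def hG (x : Torus n) : ℝ := ∑ i, NumberField.absLogHeight₁ (x i : Qb)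

/-- `A` is Zariski dense in `V` (for `A ⊆ V`, `V` closed): every closed set which contains `A`
contains `V` -/
def DenseIn (A V : Set (Torus n)) : Prop := ∀ Z : Set (Torus n), Closed Z → A ⊆ Z → V ⊆ Z

/-- the essential minimum -/
noncomputable def essMin (V : Set (Torus n)) : ℝ :=
  sInf {θ : ℝ | DenseIn {x | x ∈ V ∧ hG x ≤ θ} V}

/-- restriction of polynomials to functions on the set `Z` -/
noncomputable def restr (Z : Set (Torus n)) : MvPolynomial (Fin n) Qb →ₗ[Qb] (Z → Qb) where
  toFun P x := aeval (coord x.1) P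
  map_add' P Q := by
    funext x
    simp
  map_smul' c P := by
    funext x
    simp

/-- the Hilbert function of the closure of `Z` in `(ℙ¹)^n` with respect to `O(1, …, 1)`: the
dimension of the space of functions on `Z` which are given by polynomials of degree at most `d` in
each variable -/
noncomputable def hilb (Z : Set (Torus n)) (d : ℕ) : ℕ :=
  Module.finrank Qb ((restrictDegree (Fin n) Qb d).map (restr Z))

/-- `Z` has dimension `k` and degree `δ` with respect to `O(1, …, 1)`: the Hilbert function is
asymptotic to `(δ / k!) d ^ k` with `δ > 0` -/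
def HasDegree (Z : Set (Torus n)) (k : ℕ) (δ : ℝ) : Prop :=
  0 < δ ∧ Tendsto (fun d : ℕ => (k.factorial : ℝ) * hilb Z d / (d : ℝ) ^ k) atTop (𝓝 δ)

/-- `W` is an irreducible component of `Z` -/
def IsComponent (W Z : Set (Torus n)) : Prop :=
  IsSubvariety W ∧ W ⊆ Z ∧ ∀ W' : Set (Torus n), IsSubvariety W' → W' ⊆ Z → W ⊆ W' → W' = W

/-- all irreducible components of `Z` have dimension `k` -/
def Equidimensional (Z : Set (Torus n)) (k : ℕ) : Prop :=
  ∀ W : Set (Torus n), IsComponent W Z → ∃ δ : ℝ, HasDegree W k δ

/-- the obstruction index of `V` relative to the field `L` -/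
noncomputable def obstr (L : IntermediateField ℚ Qb) (V : Set (Torus n)) : ℝ :=
  sInf {w : ℝ | ∃ (Z : Set (Torus n)) (k : ℕ) (δ : ℝ), ClosedOver L Z ∧ Z ≠ Set.univ ∧ V ⊆ Z ∧
    Equidimensional Z k ∧ HasDegree Z k δ ∧ w = δ ^ (1 / ((n : ℝ) - (k : ℝ)))}

/-- the saturation of `Γ` -/
def sat (Γ : Subgroup (Torus n)) : Set (Torus n) := {x | ∃ m : ℕ, 0 < m ∧ x ^ m ∈ Γ}

/-- the field generated over `K` by the coordinates of the points of `Γ` -/
noncomputable def fieldOf (K : IntermediateField ℚ Qb) (Γ : Subgroup (Torus n)) :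
    IntermediateField ℚ Qb :=
  K ⊔ IntermediateField.adjoin ℚ {y | ∃ g ∈ Γ, ∃ i, y = (g i : Qb)}

/-- `Γ`-torsion subvarieties: the translates of connected algebraic subgroups by points of the
saturation of `Γ` (a closed subgroup is connected if and only if it is irreducible) -/
def IsTorsionSubvariety (Γ : Subgroup (Torus n)) (T : Set (Torus n)) : Prop :=
  ∃ (B : Subgroup (Torus n)) (γ : Torus n), IsSubvariety (B : Set (Torus n)) ∧ γ ∈ sat Γ ∧
    T = {x | ∃ b ∈ B, x = γ * b}

/-- no proper `Γ`-torsion subvariety contains `V` -/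
def Transverse (Γ : Subgroup (Torus n)) (V : Set (Torus n)) : Prop :=
  ∀ T : Set (Torus n), IsTorsionSubvariety Γ T → V ⊆ T → T = Set.univ

/-- `Γ` has finite rank: `Γ ⊗ ℚ` is finite-dimensional -/
def FiniteRank (Γ : Subgroup (Torus n)) : Prop :=
  Module.Finite ℚ (TensorProduct ℤ ℚ (Additive Γ))

/-- the rank of `Γ`, the dimension of `Γ ⊗ ℚ` -/
noncomputable def rank (Γ : Subgroup (Torus n)) : ℕ :=
  Module.finrank ℚ (TensorProduct ℤ ℚ (Additive Γ))

/-- `Γ` is a Lehmer group (over the base field `K`): the product of the obstruction index relative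
to `K(Γ)` and of the essential minimum is bounded below by a positive constant, for all
`Γ`-transverse proper subvarieties -/
def IsLehmer (K : IntermediateField ℚ Qb) (Γ : Subgroup (Torus n)) : Prop :=
  ∃ c : ℝ, 0 < c ∧ ∀ V : Set (Torus n), IsSubvariety V → V ≠ Set.univ → Transverse Γ V →
    c ≤ obstr (fieldOf K Γ) V * essMin V

/-- the character of the torus with exponent `a` -/
noncomputable def chr (a : Fin n → ℤ) : Torus n →* Qbˣ where
  toFun x := ∏ j, x j ^ a j
  map_one' := by simp
  map_mul' x y := by simp [mul_zpow, Finset.prod_mul_distrib]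

/-- the group generated by the coordinates of the points of `Γ` -/
noncomputable def coordGroup (Γ : Subgroup (Torus n)) : Subgroup Qbˣ :=
  Subgroup.closure {u | ∃ g ∈ Γ, ∃ i, u = g i}

/-- the power `Λ ^ n` of a subgroup of the multiplicative group -/
noncomputable def power (n : ℕ) (Λ : Subgroup Qbˣ) : Subgroup (Torus n) where
  carrier := {x | ∀ i, x i ∈ Λ}
  mul_mem' hx hy i := Λ.mul_mem (hx i) (hy i)
  one_mem' _ := Λ.one_mem
  inv_mem' hx i := Λ.inv_mem (hx i)

/-- there are proper `Γ`-transverse subvarieties whose obstruction indices relative to `K(Γ)` are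
bounded and whose essential minima are arbitrarily small -/
def HasBadFamily (K : IntermediateField ℚ Qb) (Γ : Subgroup (Torus n)) : Prop :=
  ∃ D : ℝ, 0 < D ∧ ∀ ε : ℝ, 0 < ε → ∃ V : Set (Torus n), IsSubvariety V ∧ V ≠ Set.univ ∧
    Transverse Γ V ∧ obstr (fieldOf K Γ) V ≤ D ∧ essMin V < ε

end Pool.Agent.W2helper47.RL
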