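import Pool.Agent.W2helper47.RL.Hilb

set_option autoImplicit false

/-!
# Degree and obstruction index of a binomial hypersurface
-/

namespace Pool.Agent.W2helper47.RL

open MvPolynomial Filter Topology

variable {n : ℕ}

lemma tendsto_slope (c : Fin n → ℝ) :
    Tendsto (fun x : ℝ => x⁻¹ * (1 - ∏ j, (1 - c j * x))) (𝓝[≠] 0) (𝓝 (∑ j, c j)) := by
  have h1 : ∀ j ∈ (Finset.univ : Finset (Fin n)),
      HasDerivAt (fun x : ℝ => 1 - c j * x) (-(c j)) 0 := by
    intro j _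
    have h2 : HasDerivAt (fun x : ℝ => c j * x) (c j * 1) 0 := (hasDerivAt_id 0).const_mul (c j)
    have h3 := h2.const_sub 1
    rwa [mul_one] at h3
  have h2 := HasDerivAt.fun_finsetProd h1
  have h3 : (∑ i : Fin n, (∏ j ∈ Finset.univ.erase i, (1 - c j * 0)) • (-(c i))) =
      -∑ j, c j := by
    rw [← Finset.sum_neg_distrib]
    refine Finset.sum_congr rfl fun i _ => ?_
    simp
  rw [h3] at h2
  have h4 := (hasDerivAt_iff_tendsto_slope_zero.mp h2).neg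
  rw [neg_neg] at h4
  refine h4.congr fun x => ?_
  simp only [zero_add, mul_zero, sub_zero, Finset.prod_const_one, smul_eq_mul]
  ring

lemma tendsto_count (c : Fin n → ℕ) (f : ℕ → ℕ)
    (hf : ∀ d : ℕ, f d + ∏ j, (d + 1 - c j) = (d + 1) ^ n) (hn : 0 < n) :
    Tendsto (fun d : ℕ => (f d : ℝ) / (d : ℝ) ^ (n - 1)) atTop (𝓝 (∑ j, (c j : ℝ))) := by
  have h0 : Tendsto (fun d : ℕ => (((d : ℝ) + 1)⁻¹ : ℝ)) atTop (𝓝[≠] 0) := by
    rw [tendsto_nhdsWithin_iff]
    refine ⟨?_, Eventually.of_forall fun d => ?_⟩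
    · have := tendsto_one_div_add_atTop_nhds_zero_nat (𝕜 := ℝ)
      simpa using this
    · have : (0 : ℝ) < ((d : ℝ) + 1)⁻¹ := by positivity
      exact this.ne'
  have h1 := (tendsto_slope (fun j => (c j : ℝ))).comp h0
  have h2 : Tendsto (fun d : ℕ => (1 + 1 / (d : ℝ)) ^ (n - 1)) atTop (𝓝 ((1 + 0) ^ (n - 1))) :=
    (tendsto_const_nhds.add (tendsto_one_div_atTop_nhds_zero_nat (𝕜 := ℝ))).pow _
  have h3 := h1.mul h2
  rw [add_zero, one_pow, mul_one] at h3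
  refine h3.congr' ?_
  have hbig : ∀ᶠ d : ℕ in atTop, ∀ j, c j ≤ d + 1 := by
    rw [eventually_all]
    intro j
    filter_upwards [eventually_ge_atTop (c j)] with d hd
    omega
  filter_upwards [hbig, eventually_gt_atTop 0] with d hd hd0
  have hd0' : (d : ℝ) ≠ 0 := by
    have : 0 < d := hd0
    positivity
  have hN : ((d : ℝ) + 1) ≠ 0 := by positivity
  have e1 : (f d : ℝ) = ((d : ℝ) + 1) ^ n - ∏ j, ((d : ℝ) + 1 - c j) := by
    have h4 := congrArg (Nat.cast : ℕ → ℝ) (hf d)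
    push_cast at h4
    rw [← h4]
    have h5 : ∏ j, ((d + 1 - c j : ℕ) : ℝ) = ∏ j, ((d : ℝ) + 1 - c j) := by
      refine Finset.prod_congr rfl fun j _ => ?_
      rw [Nat.cast_sub (hd j)]
      push_cast
      ring
    rw [h5]
    ring
  have e2 : ∏ j, ((d : ℝ) + 1 - c j) = ((d : ℝ) + 1) ^ n * ∏ j, (1 - (c j : ℝ) * ((d : ℝ) + 1)⁻¹) := by
    have h6 : ((d : ℝ) + 1) ^ n = ∏ _j : Fin n, ((d : ℝ) + 1) := by
      rw [Finset.prod_const, Finset.card_univ, Fintype.card_fin]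
    rw [h6, ← Finset.prod_mul_distrib]
    refine Finset.prod_congr rfl fun j _ => ?_
    field_simp
  have e3 : (1 + 1 / (d : ℝ)) ^ (n - 1) = ((d : ℝ) + 1) ^ (n - 1) / (d : ℝ) ^ (n - 1) := by
    rw [← div_pow]
    congr 1
    field_simp
  have e4 : ((d : ℝ) + 1) ^ n = ((d : ℝ) + 1) ^ (n - 1) * ((d : ℝ) + 1) := by
    rw [← pow_succ, Nat.sub_add_cancel hn]
  simp only [Function.comp_apply, inv_inv]
  rw [e1, e2, e3, e4]
  ring

lemma pos_of_primitive (χ a : Fin n → ℤ) (ha : ∑ j, a j * χ j = 1) : 0 < n := by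
  rcases Nat.eq_zero_or_pos n with h | h
  · subst h
    simp at ha
  · exact h

lemma hasDegree_hyp (χ a : Fin n → ℤ) (ha : ∑ j, a j * χ j = 1) (θ : Qbˣ) :
    HasDegree (hyp χ θ) (n - 1) ((n - 1).factorial * ∑ j, ((χ j).natAbs : ℝ)) := by
  have hn := pos_of_primitive χ a ha
  have hpos : 0 < ∑ j, ((χ j).natAbs : ℝ) := by
    have hχ : χ ≠ 0 := by
      rintro rfl
      simp at ha
    obtain ⟨j, hj⟩ := Function.ne_iff.mp hχ
    refine Finset.sum_pos' (fun i _ => by positivity) ⟨j, Finset.mem_univ j, ?_⟩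
    have : 0 < (χ j).natAbs := Int.natAbs_pos.mpr hj
    exact_mod_cast this
  refine ⟨by positivity, ?_⟩
  have h1 := tendsto_count (fun j => (χ j).natAbs) (fun d => hilb (hyp χ θ) d) (fun d => by
    rw [hilb_hyp χ a ha θ d, ← card_reps χ d]
    congr 1
    refine Finset.prod_congr rfl fun j _ => ?_
    have h2 := Int.natCast_natAbs (χ j)
    omega) hn
  refine (h1.const_mul ((n - 1).factorial : ℝ)).congr fun d => ?_
  ring

lemma equidimensional_of_subvariety (Z : Set (Torus n)) (k : ℕ) (δ : ℝ) (hZ : IsSubvariety Z)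
    (h : HasDegree Z k δ) : Equidimensional Z k := by
  rintro W ⟨_, hWZ, hmax⟩
  have : Z = W := hmax Z hZ subset_rfl hWZ
  rw [← this]
  exact ⟨δ, h⟩

lemma obstr_nonneg (L : IntermediateField ℚ Qb) (V : Set (Torus n)) : 0 ≤ obstr L V := by
  refine Real.sInf_nonneg ?_
  rintro w ⟨Z, k, δ, _, _, _, _, hδ, rfl⟩
  exact Real.rpow_nonneg hδ.1.le _

lemma obstr_hyp_le (L : IntermediateField ℚ Qb) (χ a : Fin n → ℤ) (ha : ∑ j, a j * χ j = 1)
    (θ : Qbˣ) (hθ : (θ : Qb) ∈ L) :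
    obstr L (hyp χ θ) ≤ (n - 1).factorial * ∑ j, ((χ j).natAbs : ℝ) := by
  have hn := pos_of_primitive χ a ha
  refine csInf_le ⟨0, ?_⟩ ?_
  · rintro w ⟨Z, k, δ, _, _, _, _, hδ, rfl⟩
    exact Real.rpow_nonneg hδ.1.le _
  · refine ⟨hyp χ θ, n - 1, _, closedOver_hyp L χ θ hθ, hyp_ne_univ χ a ha θ, subset_rfl,
      equidimensional_of_subvariety _ _ _ (subvariety_hyp χ a ha θ) (hasDegree_hyp χ a ha θ),
      hasDegree_hyp χ a ha θ, ?_⟩
    have : (n : ℝ) - ((n - 1 : ℕ) : ℝ) = 1 := by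
      rw [Nat.cast_sub hn]
      push_cast
      ring
    rw [this, div_one, Real.rpow_one]

end Pool.Agent.W2helper47.RL
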