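import Pool.Agent.W2helper47.RL.Core

set_option autoImplicit false

/-!
# Comparison of a saturated group with the power of its group of coordinates
-/

namespace Pool.Agent.W2helper47.RL

open MvPolynomial Filter Topology

variable {n : ℕ}

lemma closed_union (Z Z' : Set (Torus n)) (hZ : Closed Z) (hZ' : Closed Z') :
    Closed (Z ∪ Z') := by
  obtain ⟨S, rfl⟩ := hZ
  obtain ⟨S', rfl⟩ := hZ'
  refine ⟨{R | ∃ P ∈ S, ∃ P' ∈ S', R = P * P'}, ?_⟩
  ext x
  simp only [Set.mem_union, Set.mem_ofPred_eq]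
  constructor
  · rintro (h | h) R ⟨P, hP, P', hP', rfl⟩
    · rw [map_mul, h P hP, zero_mul]
    · rw [map_mul, h P' hP', mul_zero]
  · intro h
    by_contra hcon
    rw [not_or] at hcon
    obtain ⟨h1, h2⟩ := hcon
    push Not at h1 h2
    obtain ⟨P, hP, hPx⟩ := h1
    obtain ⟨P', hP', hPx'⟩ := h2
    have := h _ ⟨P, hP, P', hP', rfl⟩
    rw [map_mul] at this
    exact (mul_ne_zero hPx hPx') this

lemma closed_empty : Closed (∅ : Set (Torus n)) := by
  refine ⟨{1}, ?_⟩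
  ext x
  simp

lemma closed_biUnion {I : Type} (F : Finset I) (Z : I → Set (Torus n))
    (hZ : ∀ s, Closed (Z s)) : Closed (⋃ s ∈ F, Z s) := by
  classical
  induction F using Finset.induction_on with
  | empty => simpa using closed_empty
  | insert s F _ ih =>
    rw [Finset.set_biUnion_insert]
    exact closed_union _ _ (hZ s) ih

lemma subset_of_biUnion {I : Type} (V : Set (Torus n)) (hV : IsSubvariety V) (F : Finset I)
    (Z : I → Set (Torus n)) (hZ : ∀ s, Closed (Z s)) (h : V ⊆ ⋃ s ∈ F, Z s) :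
    ∃ s, V ⊆ Z s := by
  classical
  induction F using Finset.induction_on with
  | empty =>
    obtain ⟨x, hx⟩ := hV.2.1
    have := h hx
    simp at this
  | insert s F _ ih =>
    rw [Finset.set_biUnion_insert] at h
    rcases hV.2.2 _ _ (hZ s) (closed_biUnion F Z hZ) h with h1 | h1
    · exact ⟨s, h1⟩
    · exact ih h1

lemma mem_power (Λ : Subgroup Qbˣ) (x : Torus n) : x ∈ power n Λ ↔ ∀ i, x i ∈ Λ := Iff.rfl

lemma chr_mem (Λ : Subgroup Qbˣ) (x : Torus n) (hx : x ∈ power n Λ) (χ : Fin n → ℤ) :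
    chr χ x ∈ Λ := by
  rw [chr_apply]
  exact Λ.prod_mem fun j _ => Λ.zpow_mem (hx j) _

lemma le_power (Γ : Subgroup (Torus n)) : Γ ≤ power n (coordGroup Γ) := fun g hg i =>
  Subgroup.subset_closure ⟨g, hg, i, rfl⟩

lemma coordGroup_mem_field (K : IntermediateField ℚ Qb) (Γ : Subgroup (Torus n)) (u : Qbˣ)
    (hu : u ∈ coordGroup Γ) : (u : Qb) ∈ fieldOf K Γ := by
  induction hu using Subgroup.closure_induction with
  | mem u h =>
    obtain ⟨g, hg, i, rfl⟩ := h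
    exact coord_mem_fieldOf K Γ g hg i
  | one => exact (fieldOf K Γ).one_mem
  | mul x y _ _ hx hy =>
    rw [Units.val_mul]
    exact (fieldOf K Γ).mul_mem hx hy
  | inv x _ hx =>
    rw [Units.val_inv_eq_inv_val]
    exact (fieldOf K Γ).inv_mem hx

lemma fieldOf_power (K : IntermediateField ℚ Qb) (Γ : Subgroup (Torus n)) :
    fieldOf K (power n (coordGroup Γ)) = fieldOf K Γ := by
  apply le_antisymm
  · refine sup_le le_sup_left ?_
    rw [IntermediateField.adjoin_le_iff]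
    rintro y ⟨g, hg, i, rfl⟩
    exact coordGroup_mem_field K Γ _ (hg i)
  · refine sup_le_sup_left (IntermediateField.adjoin.mono _ _ _ ?_) _
    rintro y ⟨g, hg, i, rfl⟩
    exact ⟨g, le_power Γ hg, i, rfl⟩

lemma transverse_of_le (Γ Γ' : Subgroup (Torus n)) (h : Γ ≤ Γ') (V : Set (Torus n))
    (hV : Transverse Γ' V) : Transverse Γ V := by
  rintro T ⟨B, γ, hB, ⟨m, hm, hγ⟩, rfl⟩ hVT
  exact hV _ ⟨B, γ, hB, ⟨m, hm, h hγ⟩, rfl⟩ hVT

/-- a proper closed subgroup lies in the kernel of a nonzero character -/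
lemma exists_chr_of_ne (B : Subgroup (Torus n)) (hB : Closed (B : Set (Torus n)))
    (hne : ∃ y, y ∉ B) : ∃ c : Fin n → ℤ, c ≠ 0 ∧ ∀ b ∈ B, chr c b = 1 := by
  obtain ⟨S, hS⟩ := hB
  obtain ⟨y, hy⟩ := hne
  have hy' : y ∉ (B : Set (Torus n)) := hy
  rw [hS] at hy'
  simp only [Set.mem_ofPred_eq, not_forall] at hy'
  obtain ⟨P, hPS, hPy⟩ := hy'
  have hP0 : P ≠ 0 := by
    rintro rfl
    exact hPy (map_zero _)
  refine exists_chr B P hP0 fun b hb => ?_
  have hb' : b ∈ (B : Set (Torus n)) := hb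
  rw [hS] at hb'
  exact hb' P hPS

lemma torsion_mem (Γ : Subgroup (Torus n)) (hΓ : sat Γ ⊆ (Γ : Set (Torus n))) (t : Torus n)
    (m : ℕ) (hm : 0 < m) (ht : t ^ m = 1) : t ∈ Γ :=
  hΓ ⟨m, hm, by rw [ht]; exact Γ.one_mem⟩

/-- the image of a saturated group under a primitive character is saturated -/
lemma map_saturated (Γ : Subgroup (Torus n)) (hΓ : sat Γ ⊆ (Γ : Set (Torus n)))
    (χ a : Fin n → ℤ) (ha : ∑ j, a j * χ j = 1) (θ : Qbˣ) (N : ℕ) (hN : 0 < N)
    (h : ∃ g ∈ Γ, chr χ g = θ ^ N) : ∃ g ∈ Γ, chr χ g = θ := by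
  obtain ⟨g, hg, hgθ⟩ := h
  obtain ⟨y, hy⟩ := exists_root g N hN
  have hyΓ : y ∈ Γ := hΓ (root_mem_sat Γ g y _ hN (subset_sat Γ hg) hy)
  have h1 : (θ / chr χ y) ^ N = 1 := by
    rw [div_pow, ← hgθ, ← map_pow, hy, div_self']
  refine ⟨y * base a (θ / chr χ y), Γ.mul_mem hyΓ
    (torsion_mem Γ hΓ _ N hN (base_pow a _ _ h1)), ?_⟩
  rw [map_mul, chr_base χ a ha, mul_div_cancel]

lemma roots_finset (k : ℕ) (hk : 0 < k) : ∃ F : Finset Qbˣ, ∀ u : Qbˣ, u ^ k = 1 → u ∈ F := by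
  have hNz : NeZero k := ⟨hk.ne'⟩
  have hfin : Finite (rootsOfUnity k Qb) := inferInstance
  have h1 : Set.Finite ((rootsOfUnity k Qb : Subgroup Qbˣ) : Set Qbˣ) :=
    Set.finite_coe_iff.mp hfin
  refine ⟨h1.toFinset, fun u hu => ?_⟩
  rw [Set.Finite.mem_toFinset]
  exact (mem_rootsOfUnity k u).mpr hu

lemma hyp_one_eq (χ : Fin n → ℤ) : ((chr χ).ker : Set (Torus n)) = hyp χ 1 := by
  ext x
  rfl

/-- if all the nonzero characters have the same values on the saturated group `Γ`, then the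
transverse subvarieties for `Γ` are those for the power of its group of coordinates -/
lemma transverse_power (Γ : Subgroup (Torus n)) (hΓ : sat Γ ⊆ (Γ : Set (Torus n)))
    (hval : ∀ χ : Fin n → ℤ, χ ≠ 0 → Γ.map (chr χ) = coordGroup Γ) (V : Set (Torus n))
    (hVs : IsSubvariety V) (hV : Transverse Γ V) : Transverse (power n (coordGroup Γ)) V := by
  rintro T ⟨B, γ, hB, ⟨m, hm, hγ⟩, rfl⟩ hVT
  by_cases hBu : ∀ x, x ∈ B
  · ext x
    simp only [Set.mem_ofPred_eq, Set.mem_univ, iff_true]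
    exact ⟨γ⁻¹ * x, hBu _, by rw [mul_inv_cancel_left]⟩
  exfalso
  push Not at hBu
  obtain ⟨c, hc0, hc⟩ := exists_chr_of_ne B hB.1 hBu
  obtain ⟨k, χ, a, hk, rfl, ha⟩ := exists_primitive c hc0
  have hχ0 : χ ≠ 0 := by
    rintro rfl
    simp at ha
  have hkpos := Int.natAbs_pos.mpr hk
  have hV1 : ∀ v ∈ V, chr (k • χ) v = chr (k • χ) γ := by
    intro v hv
    obtain ⟨b, hb, rfl⟩ := hVT hv
    rw [map_mul, hc b hb, mul_one]
  obtain ⟨v0, hv0⟩ := hVs.2.1
  -- the character `χ` is constant on `V`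
  obtain ⟨F, hF⟩ := roots_finset k.natAbs hkpos
  have hcov : V ⊆ ⋃ ω ∈ F, hyp χ (ω * chr χ v0) := by
    intro v hv
    have h1 : (chr χ v / chr χ v0) ^ k = 1 := by
      rw [div_zpow, ← chr_zsmul, ← chr_zsmul, hV1 v hv, hV1 v0 hv0, div_self']
    have h2 : (chr χ v / chr χ v0) ^ k.natAbs = 1 := by
      obtain ⟨r, hr | hr⟩ := k.eq_nat_or_neg
      · rw [hr] at h1 ⊢
        rw [Int.natAbs_natCast, ← zpow_natCast]
        exact h1
      · rw [hr] at h1 ⊢
        rw [Int.natAbs_neg, Int.natAbs_natCast, ← zpow_natCast]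
        rwa [zpow_neg, inv_eq_one] at h1
    simp only [Set.mem_iUnion]
    refine ⟨chr χ v / chr χ v0, hF _ h2, ?_⟩
    show chr χ v = _
    rw [div_mul_cancel]
  obtain ⟨ω, hω⟩ := subset_of_biUnion V hVs F (fun ω => hyp χ (ω * chr χ v0))
    (fun ω => closed_hyp _ _) hcov
  set θ := ω * chr χ v0 with hθ
  have hθv : chr χ v0 = θ := hω hv0
  -- its value lies in `Λ`
  have hθN : ∃ g ∈ Γ, chr χ g = θ ^ (k.natAbs * m) := by
    have h1 : chr (k • χ) (γ ^ m) ∈ coordGroup Γ := chr_mem _ _ hγ _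
    rw [map_pow, ← hV1 v0 hv0, chr_zsmul, hθv] at h1
    have h2 : θ ^ (k.natAbs * m) ∈ coordGroup Γ := by
      obtain ⟨r, hr | hr⟩ := k.eq_nat_or_neg
      · rw [hr] at h1 ⊢
        rw [Int.natAbs_natCast, pow_mul, ← zpow_natCast θ r]
        exact h1
      · rw [hr] at h1 ⊢
        rw [Int.natAbs_neg, Int.natAbs_natCast, pow_mul, ← zpow_natCast θ r]
        rw [zpow_neg, inv_pow] at h1
        exact (inv_mem_iff).mp h1
    rw [← hval χ hχ0] at h2
    obtain ⟨g, hg, h⟩ := h2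
    exact ⟨g, hg, h⟩
  obtain ⟨g, hg, hgθ⟩ := map_saturated Γ hΓ χ a ha θ _ (Nat.mul_pos hkpos hm) hθN
  have hT := hV {x | ∃ b ∈ (chr χ).ker, x = g * b} ⟨(chr χ).ker, g, by
    rw [hyp_one_eq]
    exact subvariety_hyp χ a ha 1, subset_sat Γ hg, rfl⟩ (by
    intro v hv
    refine ⟨g⁻¹ * v, ?_, by rw [mul_inv_cancel_left]⟩
    have h1 : chr χ v = θ := hω hv
    rw [MonoidHom.mem_ker, map_mul, map_inv, hgθ, h1, inv_mul_cancel])
  apply hyp_ne_univ χ a ha θ
  apply Set.eq_univ_of_forall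
  intro x
  have hx : x ∈ {x | ∃ b ∈ (chr χ).ker, x = g * b} := by
    rw [hT]
    exact Set.mem_univ x
  obtain ⟨b, hb, rfl⟩ := hx
  show chr χ (g * b) = θ
  rw [map_mul, MonoidHom.mem_ker.mp hb, mul_one, hgθ]

theorem lehmer_iff_power (K : IntermediateField ℚ Qb) (Γ : Subgroup (Torus n))
    (hΓ : sat Γ ⊆ (Γ : Set (Torus n)))
    (hval : ∀ χ : Fin n → ℤ, χ ≠ 0 → Γ.map (chr χ) = coordGroup Γ) :
    IsLehmer K Γ ↔ IsLehmer K (power n (coordGroup Γ)) := by
  constructor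
  · rintro ⟨c, hc, h⟩
    refine ⟨c, hc, fun V hV1 hV2 hV3 => ?_⟩
    rw [fieldOf_power]
    exact h V hV1 hV2 (transverse_of_le _ _ (le_power Γ) V hV3)
  · rintro ⟨c, hc, h⟩
    refine ⟨c, hc, fun V hV1 hV2 hV3 => ?_⟩
    rw [← fieldOf_power]
    exact h V hV1 hV2 (transverse_power Γ hΓ hval V hV1 hV3)

/-- **Reduction to powers.** A saturated group is a Lehmer group if and only if all the nonzero
characters have the same group of values `Λ` on it and `Λ ^ n` is a Lehmer group. -/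
theorem lehmer_iff (K : IntermediateField ℚ Qb) (Γ : Subgroup (Torus n))
    (hΓ : sat Γ ⊆ (Γ : Set (Torus n))) :
    IsLehmer K Γ ↔ (∀ χ : Fin n → ℤ, χ ≠ 0 → Γ.map (chr χ) = coordGroup Γ) ∧
      IsLehmer K (power n (coordGroup Γ)) := by
  constructor
  · intro h
    have hval : ∀ χ : Fin n → ℤ, χ ≠ 0 → Γ.map (chr χ) = coordGroup Γ := by
      intro χ hχ
      apply le_antisymm
      · rintro _ ⟨g, hg, rfl⟩
        exact chr_mem _ _ (le_power Γ hg) _
      · rw [coordGroup, Subgroup.closure_le]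
        rintro _ ⟨g, hg, i, rfl⟩
        obtain ⟨g', hg', h'⟩ := values_of_lehmer K Γ hΓ h χ hχ g hg i
        exact ⟨g', hg', h'⟩
    exact ⟨hval, (lehmer_iff_power K Γ hΓ hval).mp h⟩
  · rintro ⟨hval, h⟩
    exact (lehmer_iff_power K Γ hΓ hval).mpr h

end Pool.Agent.W2helper47.RL
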