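import Pool.Agent.W2helper47.RL.Hyp
import Pool.Agent.H58R.Loc

set_option autoImplicit false

/-!
# The essential minimum of a binomial hypersurface
-/

namespace Pool.Agent.W2helper47.RL

open MvPolynomial Filter Topology
open Pool.Agent.H58R

variable {n : ℕ}

/-- the height of an algebraic number -/
noncomputable def h1 (x : Qbˣ) : ℝ := NumberField.absLogHeight₁ (x : Qb)

lemma h1_eq (x : Qbˣ) : h1 x = Pool.Agent.H58P.ht (x : Qb) := Pool.Agent.H58P.absLogHeight₁_eq _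

lemma h1_nonneg (x : Qbˣ) : 0 ≤ h1 x := by
  rw [h1_eq]
  exact ht_nonneg _

lemma h1_mul_le (x y : Qbˣ) : h1 (x * y) ≤ h1 x + h1 y := by
  rw [h1_eq, h1_eq, h1_eq, Units.val_mul]
  exact ht_mul_le _ _

lemma h1_zpow (x : Qbˣ) (m : ℤ) : h1 (x ^ m) = |(m : ℝ)| * h1 x := by
  rw [h1_eq, h1_eq, Units.val_zpow_eq_zpow_val]
  exact ht_zpow _ (Units.ne_zero x) m

lemma h1_pow (x : Qbˣ) (m : ℕ) : h1 (x ^ m) = m * h1 x := by
  have := h1_zpow x m
  rw [zpow_natCast] at this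
  rw [this]
  simp

lemma h1_root (x : Qbˣ) (m : ℕ) (hm : 0 < m) (h : x ^ m = 1) : h1 x = 0 := by
  rw [h1_eq]
  refine ht_of_pow_eq_one _ m hm ?_
  rw [← Units.val_pow_eq_pow_val, h, Units.val_one]

lemma hG_eq (x : Torus n) : hG x = ∑ i, h1 (x i) := rfl

lemma hG_nonneg (x : Torus n) : 0 ≤ hG x := Finset.sum_nonneg fun _ _ => h1_nonneg _

/-- the torsion of the group of units -/
def tors : Set Qbˣ := {u | ∃ m : ℕ, 0 < m ∧ u ^ m = 1}

lemma tors_infinite : tors.Infinite := by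
  intro hfin
  obtain ⟨N, hN⟩ : ∃ N : ℕ, hfin.toFinset.card < N := ⟨_, Nat.lt_succ_self _⟩
  have hN0 : 0 < N := by omega
  have hNz : NeZero N := ⟨hN0.ne'⟩
  have hNc : NeZero ((N : ℕ) : Qb) := ⟨by exact_mod_cast hN0.ne'⟩
  have h1 : Nat.card (rootsOfUnity N Qb) = N := HasEnoughRootsOfUnity.natCard_rootsOfUnity Qb N
  have h2 : ∀ u : rootsOfUnity N Qb, (u : Qbˣ) ∈ hfin.toFinset := fun u => by
    rw [Set.Finite.mem_toFinset]
    exact ⟨N, hN0, (mem_rootsOfUnity N _).mp u.2⟩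
  have h3 : Nat.card (rootsOfUnity N Qb) ≤ Nat.card hfin.toFinset :=
    Nat.card_le_card_of_injective (fun u => (⟨u.1, h2 u⟩ : hfin.toFinset)) fun u v huv => by
      apply Subtype.ext
      have h4 := congrArg Subtype.val huv
      exact h4
  rw [h1, Nat.card_eq_fintype_card, Fintype.card_coe] at h3
  omega

lemma torsion_zpow {u : Qbˣ} (hu : u ∈ tors) (k : ℤ) : u ^ k ∈ tors := by
  obtain ⟨m, hm, h⟩ := hu
  refine ⟨m, hm, ?_⟩
  rw [← zpow_natCast, ← zpow_mul, mul_comm, zpow_mul, zpow_natCast, h, one_zpow]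

lemma torsion_prod {I : Type} (s : Finset I) (f : I → Qbˣ) (hf : ∀ i ∈ s, f i ∈ tors) :
    ∏ i ∈ s, f i ∈ tors := by
  classical
  induction s using Finset.induction_on with
  | empty => exact ⟨1, one_pos, by simp⟩
  | insert i s hi ih =>
    rw [Finset.prod_insert hi]
    obtain ⟨m, hm, h⟩ := hf i (Finset.mem_insert_self i s)
    obtain ⟨m', hm', h'⟩ := ih fun j hj => hf j (Finset.mem_insert_of_mem hj)
    refine ⟨m * m', Nat.mul_pos hm hm', ?_⟩
    rw [mul_pow, pow_mul, h, one_pow, mul_comm m m', pow_mul, h', one_pow, mul_one]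

lemma essMin_bddBelow (V : Set (Torus n)) (hV : V.Nonempty) (θ : ℝ)
    (h : DenseIn {x | x ∈ V ∧ hG x ≤ θ} V) : 0 ≤ θ := by
  by_contra hneg
  push Not at hneg
  have h2 : Closed (∅ : Set (Torus n)) := by
    refine ⟨{1}, ?_⟩
    ext x
    simp
  have h3 := h ∅ h2 (by
    rintro x ⟨_, hx⟩
    exact absurd (hG_nonneg x) (by linarith))
  exact hV.ne_empty (Set.subset_empty_iff.mp h3)

lemma essMin_nonneg (V : Set (Torus n)) (hV : V.Nonempty) : 0 ≤ essMin V :=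
  Real.sInf_nonneg fun θ h => essMin_bddBelow V hV θ h

lemma essMin_le (V : Set (Torus n)) (hV : V.Nonempty) (θ : ℝ)
    (h : DenseIn {x | x ∈ V ∧ hG x ≤ θ} V) : essMin V ≤ θ :=
  csInf_le ⟨0, fun θ' h' => essMin_bddBelow V hV θ' h'⟩ h

lemma essMin_hyp_le (χ a : Fin n → ℤ) (ha : ∑ j, a j * χ j = 1) (θ : Qbˣ) :
    essMin (hyp χ θ) ≤ (∑ j, ((a j).natAbs : ℝ)) * h1 θ := by
  have hsub := subvariety_hyp χ a ha θ
  refine essMin_le _ hsub.2.1 _ ?_
  rintro Z ⟨S, rfl⟩ hS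
  have hrange := hyp_eq_range χ a ha θ
  intro x hx
  rw [hrange] at hx
  obtain ⟨t, rfl⟩ := hx
  intro P hP
  refine vanish_of_dense tors tors_infinite _ _ P (fun u hu => ?_) t
  refine hS ⟨?_, ?_⟩ P hP
  · rw [hrange]
    exact ⟨u, rfl⟩
  · rw [hG_eq, Finset.sum_mul]
    refine Finset.sum_le_sum fun k _ => ?_
    rw [mono, base]
    refine (h1_mul_le _ _).trans ?_
    obtain ⟨m, hm, hm1⟩ := torsion_prod Finset.univ (fun i => u i ^ kos χ k i)
      fun i _ => torsion_zpow (hu i) _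
    rw [h1_root _ m hm hm1, h1_zpow, add_zero]
    refine le_of_eq ?_
    rw [Nat.cast_natAbs, Int.cast_abs]

end Pool.Agent.W2helper47.RL
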