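import Pool.Agent.W2helper47.RL.Rank

set_option autoImplicit false

/-!
# Explicit groups; finiteness of the rank of powers
-/

namespace Pool.Agent.W2helper47.RL

open TensorProduct

variable {n : ℕ}

/-- the saturation as a subgroup -/
def satGroup (Γ : Subgroup (Torus n)) : Subgroup (Torus n) where
  carrier := sat Γ
  one_mem' := subset_sat Γ Γ.one_mem
  inv_mem' := fun {x} hx => inv_mem_sat Γ x hx
  mul_mem' := by
    rintro x y ⟨k, hk, hx⟩ ⟨l, hl, hy⟩
    refine ⟨k * l, Nat.mul_pos hk hl, ?_⟩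
    rw [mul_pow, pow_mul x, mul_comm k l, pow_mul y]
    exact Γ.mul_mem (Γ.pow_mem hx l) (Γ.pow_mem hy k)

lemma sat_satGroup (Γ : Subgroup (Torus n)) : sat (satGroup Γ) ⊆ (satGroup Γ : Set (Torus n)) := by
  rintro x ⟨m, hm, hx⟩
  exact root_mem_sat Γ _ x m hm hx rfl

lemma tmul_root {M : Type} [AddCommGroup M] (g x : M) (m : ℕ) (hm : 0 < m) (k : ℤ)
    (h : (m : ℤ) • x = k • g) (q : ℚ) :
    q ⊗ₜ[ℤ] x = ((k : ℚ) * (q / m)) • ((1 : ℚ) ⊗ₜ[ℤ] g) := by
  have hm0 : (m : ℚ) ≠ 0 := by positivity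
  have h5 : q = (m : ℤ) • (q / m) := by
    rw [zsmul_eq_mul]
    push_cast
    field_simp
  calc q ⊗ₜ[ℤ] x = ((m : ℤ) • (q / m)) ⊗ₜ[ℤ] x := by rw [← h5]
    _ = (q / m) ⊗ₜ[ℤ] ((m : ℤ) • x) := by rw [TensorProduct.smul_tmul]
    _ = (q / m) ⊗ₜ[ℤ] (k • g) := by rw [h]
    _ = (k • (q / m)) ⊗ₜ[ℤ] g := by rw [TensorProduct.smul_tmul]
    _ = ((k : ℚ) * (q / m)) • ((1 : ℚ) ⊗ₜ[ℤ] g) := by
      rw [TensorProduct.smul_tmul', smul_eq_mul, mul_one, zsmul_eq_mul]

lemma finiteRank_satGroup_zpowers (g : Torus n) : FiniteRank (satGroup (Subgroup.zpowers g)) := by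
  set Γ := satGroup (Subgroup.zpowers g) with hΓ
  have hg : g ∈ Γ := subset_sat _ (Subgroup.mem_zpowers g)
  refine ⟨⟨{(1 : ℚ) ⊗ₜ[ℤ] (Additive.ofMul (⟨g, hg⟩ : Γ))}, ?_⟩⟩
  rw [eq_top_iff]
  rintro z -
  induction z using TensorProduct.induction_on with
  | zero => exact Submodule.zero_mem _
  | add x y hx hy => exact Submodule.add_mem _ hx hy
  | tmul q x =>
    obtain ⟨m, hm, k, hk⟩ := (Additive.toMul x : Γ).2
    have h2 : (m : ℤ) • x = k • (Additive.ofMul (⟨g, hg⟩ : Γ)) := by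
      have h3 : (Additive.toMul x : Γ) ^ m = (⟨g, hg⟩ : Γ) ^ k := by
        apply Subtype.ext
        have hk' : g ^ k = (Additive.toMul x : Γ).1 ^ m := hk
        rw [SubgroupClass.coe_pow, SubgroupClass.coe_zpow]
        exact hk'.symm
      have h4 : m • x = k • (Additive.ofMul (⟨g, hg⟩ : Γ)) := h3
      rw [natCast_zsmul]
      exact h4
    have h6 := tmul_root (Additive.ofMul (⟨g, hg⟩ : Γ)) x m hm k h2 q
    rw [h6]
    exact Submodule.smul_mem _ _ (Submodule.subset_span (by simp))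

/-- the power of the group of coordinates of a saturated group is saturated -/
lemma sat_power (Γ : Subgroup (Torus n)) (hΓ : sat Γ ⊆ (Γ : Set (Torus n)))
    (hval : ∀ χ : Fin n → ℤ, χ ≠ 0 → Γ.map (chr χ) = coordGroup Γ) :
    sat (power n (coordGroup Γ)) ⊆ (power n (coordGroup Γ) : Set (Torus n)) := by
  rintro x ⟨m, hm, hx⟩ i
  have hne : (Pi.single i 1 : Fin n → ℤ) ≠ 0 := by
    intro h
    have := congrFun h i
    simp at this
  have hprim : ∑ j, (Pi.single i 1 : Fin n → ℤ) j * (Pi.single i 1 : Fin n → ℤ) j = 1 := by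
    rw [Finset.sum_eq_single i]
    · simp
    · intro j _ hj
      simp [hj]
    · simp
  have h1 : x i ^ m ∈ coordGroup Γ := hx i
  rw [← hval _ hne] at h1 ⊢
  obtain ⟨g, hg, h⟩ := h1
  exact map_saturated Γ hΓ _ _ hprim (x i) m hm ⟨g, hg, h⟩

lemma chr_single (i : Fin n) (x : Torus n) : chr (Pi.single i 1) x = x i := by
  rw [chr_apply, Finset.prod_eq_single i]
  · simp
  · intro j _ hj
    simp [hj]
  · simp

lemma exists_coord (Γ : Subgroup (Torus n))
    (hval : ∀ χ : Fin n → ℤ, χ ≠ 0 → Γ.map (chr χ) = coordGroup Γ) (u : Qbˣ)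
    (hu : u ∈ coordGroup Γ) (i : Fin n) : ∃ g ∈ Γ, g i = u := by
  have hne : (Pi.single i 1 : Fin n → ℤ) ≠ 0 := by
    intro h
    have := congrFun h i
    simp at this
  rw [← hval _ hne] at hu
  obtain ⟨g, hg, h⟩ := hu
  exact ⟨g, hg, by rw [← h, chr_single]⟩

/-- the power of the group of coordinates has finite rank -/
lemma finiteRank_power (Γ : Subgroup (Torus n)) (hfin : FiniteRank Γ)
    (hval : ∀ χ : Fin n → ℤ, χ ≠ 0 → Γ.map (chr χ) = coordGroup Γ) :
    FiniteRank (power n (coordGroup Γ)) := by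
  have hfin' : Module.Finite ℚ (TensorProduct ℤ ℚ (Additive Γ)) := hfin
  let ψ : (Fin n → Additive Γ) →+ Additive (power n (coordGroup Γ)) :=
    { toFun := fun g => Additive.ofMul ⟨fun i => (Additive.toMul (g i) : Γ).1 i, fun i =>
        Subgroup.subset_closure ⟨(Additive.toMul (g i) : Γ).1, (Additive.toMul (g i) : Γ).2, i, rfl⟩⟩
      map_zero' := rfl
      map_add' := fun g h => rfl }
  have hψ : Function.Surjective ψ := by
    intro x
    have h1 : ∀ i, ∃ g ∈ Γ, g i = (Additive.toMul x : power n (coordGroup Γ)).1 i := fun i =>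
      exists_coord Γ hval _ ((Additive.toMul x : power n (coordGroup Γ)).2 i) i
    choose g hg h using h1
    refine ⟨fun i => Additive.ofMul ⟨g i, hg i⟩, ?_⟩
    apply Additive.toMul.injective
    apply Subtype.ext
    funext i
    exact h i
  have hfin2 : Module.Finite ℚ (TensorProduct ℤ ℚ (Fin n → Additive Γ)) :=
    Module.Finite.equiv (TensorProduct.piRight ℤ ℚ ℚ (fun _ : Fin n => Additive Γ)).symm
  refine Module.Finite.of_surjective (LinearMap.baseChange ℚ ψ.toIntLinearMap) ?_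
  exact LinearMap.lTensor_surjective ℚ hψ

/-- the group of coordinates of a power -/
lemma coordGroup_power (hn : 0 < n) (Λ : Subgroup Qbˣ) : coordGroup (power n Λ) = Λ := by
  apply le_antisymm
  · rw [coordGroup, Subgroup.closure_le]
    rintro _ ⟨g, hg, i, rfl⟩
    exact hg i
  · intro u hu
    exact Subgroup.subset_closure ⟨fun _ => u, fun _ => hu, ⟨0, hn⟩, rfl⟩

/-- the values of a nonzero character on a saturated power -/
lemma map_power (Λ : Subgroup Qbˣ) (hΛ : sat (power n Λ) ⊆ (power n Λ : Set (Torus n)))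
    (χ : Fin n → ℤ) (hχ : χ ≠ 0) : (power n Λ).map (chr χ) = coordGroup (power n Λ) := by
  obtain ⟨j, hj⟩ := Function.ne_iff.mp hχ
  have hn : 0 < n := Fin.pos j
  rw [coordGroup_power hn]
  apply le_antisymm
  · rintro _ ⟨g, hg, rfl⟩
    exact chr_mem _ _ hg _
  · intro u hu
    obtain ⟨k, χ', a, hk, rfl, ha⟩ := exists_primitive χ hχ
    have h1 : base a u ∈ power n Λ := fun i => Λ.zpow_mem hu _
    obtain ⟨g, hg, h⟩ := chr_smul_sat (power n Λ) χ' k hk (base a u) (subset_sat _ h1)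
    exact ⟨g, hΛ hg, by rw [h, chr_base χ' a ha]⟩

end Pool.Agent.W2helper47.RL
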