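import Pool.Agent.W2helper47.RL.Hyp

set_option autoImplicit false

/-!
# The Hilbert function of a binomial hypersurface
-/

namespace Pool.Agent.W2helper47.RL

open MvPolynomial Filter Topology

variable {n : ℕ}

lemma two_zpow (m : ℤ) (h : (Units.mk0 (2 : Qb) two_ne_zero) ^ m = 1) : m = 0 := by
  have key : ∀ k : ℕ, (Units.mk0 (2 : Qb) two_ne_zero) ^ k = 1 → k = 0 := by
    intro k hk
    have h1 : ((2 : Qb)) ^ k = 1 := by
      have := congrArg Units.val hk
      simpa using this
    have h2 : ((2 ^ k : ℕ) : Qb) = ((1 : ℕ) : Qb) := by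
      push_cast
      exact h1
    have h3 : 2 ^ k = 1 := Nat.cast_injective h2
    by_contra hk0
    have := Nat.one_lt_two_pow hk0
    omega
  obtain ⟨k, rfl | rfl⟩ := m.eq_nat_or_neg
  · rw [zpow_natCast] at h
    exact_mod_cast key k h
  · rw [zpow_neg, zpow_natCast, inv_eq_one] at h
    rw [key k h]
    rfl

/-- a character which is trivial on the kernel of a primitive character is a power of it -/
lemma exists_zsmul (χ a b : Fin n → ℤ) (ha : ∑ j, a j * χ j = 1)
    (hb : ∀ x : Torus n, chr χ x = 1 → chr b x = 1) : b = (∑ j, a j * b j) • χ := by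
  classical
  set u : Qbˣ := Units.mk0 (2 : Qb) two_ne_zero with hu
  have hsum : ∀ (c : Fin n → ℤ) (p : Fin n × Fin n),
      ∑ k, kos χ k p * c k = χ p.2 * c p.1 - χ p.1 * c p.2 := by
    intro c p
    simp only [kos, sub_mul, Finset.sum_sub_distrib, ite_mul, zero_mul, Finset.sum_ite_eq',
      Finset.mem_univ, if_true]
  have key : ∀ p : Fin n × Fin n, χ p.2 * b p.1 = χ p.1 * b p.2 := by
    intro p
    have h1 : ∀ c : Fin n → ℤ, chr c (fun k => u ^ kos χ k p) =
        u ^ (χ p.2 * c p.1 - χ p.1 * c p.2) := by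
      intro c
      rw [chr_apply, ← hsum c p, ← prod_zpow_sum]
      exact Finset.prod_congr rfl fun k _ => (zpow_mul _ _ _).symm
    have h2 := hb (fun k => u ^ kos χ k p) (by rw [h1, mul_comm, sub_self, zpow_zero])
    rw [h1] at h2
    have := two_zpow _ h2
    linarith
  funext i
  rw [Pi.smul_apply, smul_eq_mul, Finset.sum_mul]
  calc b i = (∑ j, a j * χ j) * b i := by rw [ha, one_mul]
    _ = ∑ j, a j * b j * χ i := by
      rw [Finset.sum_mul]
      refine Finset.sum_congr rfl fun j _ => ?_
      have := key (i, j)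
      simp only at this
      rw [mul_assoc, this]
      ring

/-- the exponent vectors with coordinates in `[0, d]` -/
noncomputable def box (n d : ℕ) : Finset (Fin n → ℤ) := Fintype.piFinset fun _ => Finset.Icc (0 : ℤ) d

lemma mem_box {d : ℕ} {a : Fin n → ℤ} : a ∈ box n d ↔ ∀ j, 0 ≤ a j ∧ a j ≤ d := by
  simp [box]

/-- representatives of the classes modulo `χ` which meet the box -/
noncomputable def reps (χ : Fin n → ℤ) (d : ℕ) : Finset (Fin n → ℤ) := (box n d).filter fun a => a - χ ∉ box n d

/-- a character as a function on the set `V` -/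
noncomputable def fch (V : Set (Torus n)) (a : Fin n → ℤ) : V → Qb := fun x => (chr a x.1 : Qb)

lemma restr_monomial (V : Set (Torus n)) (s : Fin n →₀ ℕ) (c : Qb) :
    restr V (monomial s c) = c • fch V (fun j => (s j : ℤ)) := by
  funext x
  show aeval (coord x.1) (monomial s c) = _
  rw [aeval_monomial']
  rfl

lemma map_restr (V : Set (Torus n)) (d : ℕ) :
    (restrictDegree (Fin n) Qb d).map (restr V) =
      Submodule.span Qb (fch V '' (box n d : Set (Fin n → ℤ))) := by
  apply le_antisymm
  · rintro _ ⟨P, hP, rfl⟩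
    have hP' := (mem_restrictDegree (Fin n) P d).mp hP
    rw [P.as_sum, map_sum]
    refine Submodule.sum_mem _ fun s hs => ?_
    rw [restr_monomial]
    refine Submodule.smul_mem _ _ (Submodule.subset_span ⟨_, ?_, rfl⟩)
    rw [Finset.mem_coe, mem_box]
    intro j
    exact ⟨Int.natCast_nonneg _, by exact_mod_cast hP' s hs j⟩
  · rw [Submodule.span_le]
    rintro _ ⟨a, ha, rfl⟩
    rw [Finset.mem_coe, mem_box] at ha
    refine ⟨monomial (pos a) 1, ?_, ?_⟩
    · rw [SetLike.mem_coe, mem_restrictDegree]
      intro s hs i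
      have : s = pos a := by
        have := support_monomial_subset hs
        simpa using this
      rw [this, pos_apply]
      have := ha i
      omega
    · rw [restr_monomial, one_smul]
      congr 1
      funext j
      rw [pos_apply]
      have := ha j
      omega

lemma span_box_eq (χ : Fin n → ℤ) (hχ : χ ≠ 0) (θ : Qbˣ) (d : ℕ) :
    Submodule.span Qb (fch (hyp χ θ) '' (box n d : Set (Fin n → ℤ))) =
      Submodule.span Qb (fch (hyp χ θ) '' (reps χ d : Set (Fin n → ℤ))) := by
  obtain ⟨j, hj⟩ := Function.ne_iff.mp hχ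
  rw [Pi.zero_apply] at hj
  apply le_antisymm
  · rw [Submodule.span_le]
    rintro _ ⟨a, ha, rfl⟩
    rw [Finset.mem_coe] at ha
    have key : ∀ (N : ℕ) (a : Fin n → ℤ), a ∈ box n d → ((χ j).sign * a j + d).toNat ≤ N →
        fch (hyp χ θ) a ∈
          Submodule.span Qb (fch (hyp χ θ) '' (reps χ d : Set (Fin n → ℤ))) := by
      intro N
      induction N using Nat.strong_induction_on with
      | _ N ih =>
        intro a ha hN
        by_cases h : a - χ ∈ box n d
        · have h1 : fch (hyp χ θ) a = (θ : Qb) • fch (hyp χ θ) (a - χ) := by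
            funext x
            show (chr a x.1 : Qb) = (θ : Qb) * (chr (a - χ) x.1 : Qb)
            have hx : chr χ x.1 = θ := x.2
            rw [chr_sub, hx, ← Units.val_mul]
            congr 1
            rw [mul_div_cancel]
          rw [h1]
          refine Submodule.smul_mem _ _ ?_
          have h2 := (mem_box.mp ha) j
          have h3 := (mem_box.mp h) j
          rw [Pi.sub_apply] at h3
          have h4 : ((χ j).sign * (a - χ) j + d).toNat < ((χ j).sign * a j + d).toNat := by
            rw [Pi.sub_apply]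
            rcases lt_or_gt_of_ne hj with h5 | h5
            · rw [Int.sign_eq_neg_one_of_neg h5]
              omega
            · rw [Int.sign_eq_one_of_pos h5]
              omega
          exact ih _ (lt_of_lt_of_le h4 hN) _ h le_rfl
        · exact Submodule.subset_span ⟨a, by
            rw [Finset.mem_coe, reps, Finset.mem_filter]
            exact ⟨ha, h⟩, rfl⟩
    exact key _ a ha le_rfl
  · refine Submodule.span_mono (Set.image_mono ?_)
    rw [Finset.coe_subset]
    exact Finset.filter_subset _ _

lemma inj_reps (χ a : Fin n → ℤ) (ha : ∑ j, a j * χ j = 1) (d : ℕ) (b c : Fin n → ℤ)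
    (hb : b ∈ reps χ d) (hc : c ∈ reps χ d)
    (h : ∀ x : Torus n, chr χ x = 1 → chr b x = chr c x) : b = c := by
  have h1 := exists_zsmul χ a (b - c) ha fun x hx => by rw [chr_sub, h x hx, div_self']
  set k := ∑ j, a j * (b - c) j with hk
  have hmid : ∀ (b c : Fin n → ℤ) (k : ℤ), b ∈ reps χ d → c ∈ reps χ d → b - c = k • χ →
      ¬ 1 ≤ k := by
    intro b c k hb hc hbc hk1
    rw [reps, Finset.mem_filter] at hb hc
    refine hb.2 (mem_box.mpr fun j => ?_)
    have e : b j - c j = k * χ j := by
      have := congrFun hbc j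
      simpa using this
    have h2 := (mem_box.mp hb.1) j
    have h3 := (mem_box.mp hc.1) j
    rw [Pi.sub_apply]
    rcases le_or_gt 0 (χ j) with h4 | h4
    · have : χ j ≤ k * χ j := by nlinarith
      omega
    · have : k * χ j ≤ χ j := by nlinarith
      omega
  have hk0 : k = 0 := by
    have h2 := hmid b c k hb hc h1
    have h3 := hmid c b (-k) hc hb (by rw [neg_smul, ← h1, neg_sub])
    omega
  rw [hk0, zero_smul, sub_eq_zero] at h1
  exact h1

lemma linearIndependent_reps (χ a : Fin n → ℤ) (ha : ∑ j, a j * χ j = 1) (θ : Qbˣ) (d : ℕ) :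
    LinearIndependent Qb (fun b : reps χ d => fch (hyp χ θ) b.1) := by
  have hv : chr χ (base a θ) = θ := by
    rw [chr_apply]
    have : ∀ k, base a θ k ^ χ k = θ ^ (a k * χ k) := fun k => (zpow_mul _ _ _).symm
    simp only [this]
    rw [prod_zpow_sum, ha, zpow_one]
  set H : Subgroup (Torus n) := (chr χ).ker with hH
  let T : (hyp χ θ → Qb) →ₗ[Qb] (H → Qb) :=
    { toFun := fun f h => f ⟨base a θ * h.1, by
        show chr χ (base a θ * h.1) = θ
        rw [map_mul, hv, (MonoidHom.mem_ker).mp h.2, mul_one]⟩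
      map_add' := fun f g => rfl
      map_smul' := fun c f => rfl }
  let ψ : (Fin n → ℤ) → (H →* Qb) := fun b => (Units.coeHom Qb).comp ((chr b).comp H.subtype)
  have hinj : Function.Injective (fun b : reps χ d => ψ b.1) := by
    intro b c hbc
    apply Subtype.ext
    refine inj_reps χ a ha d b.1 c.1 b.2 c.2 fun x hx => ?_
    have := DFunLike.congr_fun hbc ⟨x, MonoidHom.mem_ker.mpr hx⟩
    exact Units.ext this
  have h1 := (linearIndependent_monoidHom H Qb).comp _ hinj
  have h2 := h1.units_smul (fun b : reps χ d => chr b.1 (base a θ))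
  refine LinearIndependent.of_comp T ?_
  convert! h2 using 1
  funext b h
  show (chr b.1 (base a θ * h.1) : Qb) = _
  rw [map_mul, Units.val_mul]
  rfl

lemma hilb_hyp (χ a : Fin n → ℤ) (ha : ∑ j, a j * χ j = 1) (θ : Qbˣ) (d : ℕ) :
    hilb (hyp χ θ) d = (reps χ d).card := by
  have hχ : χ ≠ 0 := by
    rintro rfl
    simp at ha
  rw [hilb, map_restr, span_box_eq χ hχ θ d]
  have h1 : fch (hyp χ θ) '' (reps χ d : Set (Fin n → ℤ)) =
      Set.range (fun b : reps χ d => fch (hyp χ θ) b.1) := by
    ext f
    constructor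
    · rintro ⟨b, hb, rfl⟩
      exact ⟨⟨b, hb⟩, rfl⟩
    · rintro ⟨b, rfl⟩
      exact ⟨b.1, b.2, rfl⟩
  rw [h1, finrank_span_eq_card (linearIndependent_reps χ a ha θ d), Fintype.card_coe]

lemma card_reps (χ : Fin n → ℤ) (d : ℕ) :
    (reps χ d).card + ∏ j, ((d : ℤ) + 1 - |χ j|).toNat = (d + 1) ^ n := by
  classical
  have h1 : (box n d).card = (d + 1) ^ n := by
    rw [box, Fintype.card_piFinset]
    simp
  have h2 : ((box n d).filter fun a => a - χ ∈ box n d) =
      Fintype.piFinset fun j => Finset.Icc (max 0 (χ j)) (min (d : ℤ) (d + χ j)) := by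
    ext a
    rw [Finset.mem_filter, mem_box, mem_box, Fintype.mem_piFinset]
    constructor
    · rintro ⟨h3, h4⟩ j
      have h5 := h3 j
      have h6 := h4 j
      rw [Pi.sub_apply] at h6
      rw [Finset.mem_Icc]
      omega
    · intro h3
      refine ⟨fun j => ?_, fun j => ?_⟩
      · have := Finset.mem_Icc.mp (h3 j)
        omega
      · have := Finset.mem_Icc.mp (h3 j)
        rw [Pi.sub_apply]
        omega
  have h3 : ((box n d).filter fun a => a - χ ∈ box n d).card =
      ∏ j, ((d : ℤ) + 1 - |χ j|).toNat := by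
    rw [h2, Fintype.card_piFinset]
    refine Finset.prod_congr rfl fun j _ => ?_
    rw [Int.card_Icc]
    congr 1
    rcases le_or_gt 0 (χ j) with h | h
    · rw [abs_of_nonneg h]
      omega
    · rw [abs_of_neg h]
      omega
  rw [← h1, ← h3, reps, add_comm]
  exact Finset.card_filter_add_card_filter_not _

end Pool.Agent.W2helper47.RL
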