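import Pool.Agent.W2helper47.RL.Mono

set_option autoImplicit false

/-!
# Binomial hypersurfaces: closedness, irreducibility, Hilbert function
-/

namespace Pool.Agent.W2helper47.RL

open MvPolynomial Filter Topology

variable {n : ℕ}

/-- positive part of an exponent vector -/
noncomputable def pos (χ : Fin n → ℤ) : Fin n →₀ ℕ := Finsupp.equivFunOnFinite.symm fun j => (χ j).toNat

lemma pos_apply (χ : Fin n → ℤ) (j : Fin n) : pos χ j = (χ j).toNat := rfl

lemma chr_pos (χ : Fin n → ℤ) (x : Torus n) :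
    chr χ x = chr (fun j => (pos χ j : ℤ)) x / chr (fun j => (pos (-χ) j : ℤ)) x := by
  rw [← chr_sub]
  have h : χ = (fun j => (pos χ j : ℤ)) - fun j => (pos (-χ) j : ℤ) := by
    funext j
    simp only [Pi.sub_apply, pos_apply, Pi.neg_apply]
    omega
  rw [← h]

lemma mem_hyp_iff (χ : Fin n → ℤ) (θ : Qbˣ) (x : Torus n) :
    x ∈ hyp χ θ ↔ (chr (fun j => (pos χ j : ℤ)) x : Qb) =
      θ * (chr (fun j => (pos (-χ) j : ℤ)) x : Qb) := by
  show chr χ x = θ ↔ _
  rw [chr_pos, div_eq_iff_eq_mul, ← Units.val_mul, Units.val_inj]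

lemma closedOver_hyp (L : IntermediateField ℚ Qb) (χ : Fin n → ℤ) (θ : Qbˣ)
    (hθ : (θ : Qb) ∈ L) : ClosedOver L (hyp χ θ) := by
  refine ⟨{monomial (pos χ) 1 - monomial (pos (-χ)) ⟨(θ : Qb), hθ⟩}, ?_⟩
  ext x
  rw [mem_hyp_iff]
  simp only [Set.mem_singleton_iff, forall_eq, Set.mem_ofPred_eq, map_sub, sub_eq_zero]
  have key : ∀ (s : Fin n →₀ ℕ) (c : L), aeval (coord x) (monomial s c) =
      (c : Qb) * (chr (fun j => (s j : ℤ)) x : Qb) := by
    intro s c
    rw [← aeval_monomial', aeval_monomial, aeval_monomial]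
    rfl
  rw [key, key]
  simp

lemma closed_hyp (χ : Fin n → ℤ) (θ : Qbˣ) : Closed (hyp χ θ) := by
  refine ⟨{monomial (pos χ) 1 - monomial (pos (-χ)) (θ : Qb)}, ?_⟩
  ext x
  rw [mem_hyp_iff]
  simp only [Set.mem_singleton_iff, forall_eq, Set.mem_ofPred_eq, map_sub, sub_eq_zero,
    aeval_monomial', one_mul]

lemma subvariety_hyp (χ a : Fin n → ℤ) (ha : ∑ j, a j * χ j = 1) (θ : Qbˣ) :
    IsSubvariety (hyp χ θ) := by
  rw [hyp_eq_range χ a ha θ]
  refine subvariety_range _ _ ?_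
  rw [← hyp_eq_range χ a ha θ]
  exact closed_hyp χ θ

lemma hyp_ne_univ (χ a : Fin n → ℤ) (ha : ∑ j, a j * χ j = 1) (θ : Qbˣ) :
    hyp χ θ ≠ Set.univ := by
  intro h
  have h1 : ∀ η : Qbˣ, chr χ (base a η) = η := fun η => by
    rw [chr_apply]
    have : ∀ k, base a η k ^ χ k = η ^ (a k * χ k) := fun k => (zpow_mul _ _ _).symm
    simp only [this]
    rw [prod_zpow_sum, ha, zpow_one]
  have h2 : ∀ x : Torus n, chr χ x = θ := fun x => by
    have : x ∈ hyp χ θ := by rw [h]; exact Set.mem_univ x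
    exact this
  have h3 : ∀ η : Qbˣ, η = θ := fun η => by rw [← h1 η, h2]
  refine infinite_units ((Set.finite_singleton θ).subset fun η _ => h3 η)

end Pool.Agent.W2helper47.RL
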