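import Pool.Agent.W2helper47.RL.Expl

set_option autoImplicit false

/-!
# Groups of rank smaller than `n`: finitely many characters which miss all the numbers of infinite
order
-/

namespace Pool.Agent.W2helper47.RL

open TensorProduct

variable {n : ℕ}

/-- the restriction of a rational valued homomorphism to the coordinates of `Γ` -/
noncomputable def restrHom (Γ : Subgroup (Torus n)) :
    (Additive Qbˣ →+ ℚ) →ₗ[ℚ] (Fin n → Module.Dual ℚ (TensorProduct ℤ ℚ (Additive Γ))) where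
  toFun f j := LinearMap.liftBaseChange ℚ (coordFun Γ f j).toIntLinearMap
  map_add' f f' := by
    funext j
    refine TensorProduct.AlgebraTensorModule.curry_injective ?_
    ext g
    simp [coordFun]
  map_smul' c f := by
    funext j
    refine TensorProduct.AlgebraTensorModule.curry_injective ?_
    ext g
    simp [coordFun]

lemma restrHom_tmul (Γ : Subgroup (Torus n)) (f : Additive Qbˣ →+ ℚ) (j : Fin n) (g : Torus n)
    (hg : g ∈ Γ) : restrHom Γ f j ((1 : ℚ) ⊗ₜ[ℤ] (Additive.ofMul (⟨g, hg⟩ : Γ))) =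
      f (Additive.ofMul (g j)) := by
  show LinearMap.liftBaseChange ℚ (coordFun Γ f j).toIntLinearMap _ = _
  rw [LinearMap.liftBaseChange_tmul, one_smul]
  rfl

/-- values on the saturation -/
lemma eq_zero_on_sat (Γ : Subgroup (Torus n)) (F : Torus n → ℚ)
    (hF : ∀ (g : Torus n) (m : ℕ), F (g ^ m) = m * F g) (h : ∀ g ∈ Γ, F g = 0) (g : Torus n)
    (hg : g ∈ sat Γ) : F g = 0 := by
  obtain ⟨m, hm, h1⟩ := hg
  have h2 := h _ h1
  rw [hF] at h2
  have hm0 : (m : ℚ) ≠ 0 := by positivity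
  exact (mul_eq_zero.mp h2).resolve_left hm0

lemma map_chr_pow (f : Additive Qbˣ →+ ℚ) (χ : Fin n → ℤ) (g : Torus n) (m : ℕ) :
    f (Additive.ofMul (chr χ (g ^ m))) = m * f (Additive.ofMul (chr χ g)) := by
  rw [map_pow, ofMul_pow, map_nsmul, nsmul_eq_mul]

/-- a character which kills the functional `f` on the saturation of `Γ` -/
lemma exists_killing (Γ : Subgroup (Torus n)) (hfin : FiniteRank Γ) (hn : rank Γ < n)
    (f : Additive Qbˣ →+ ℚ) :
    ∃ χ : Fin n → ℤ, χ ≠ 0 ∧ ∀ g ∈ sat Γ, f (Additive.ofMul (chr χ g)) = 0 := by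
  have hfin' : Module.Finite ℚ (TensorProduct ℤ ℚ (Additive Γ)) := hfin
  have hdep : ¬ LinearIndependent ℚ (restrHom Γ f) := by
    intro hli
    have h1 := hli.fintype_card_le_finrank
    rw [Subspace.dual_finrank_eq, Fintype.card_fin] at h1
    have h2 : Module.finrank ℚ (TensorProduct ℤ ℚ (Additive Γ)) = rank Γ := rfl
    omega
  rw [Fintype.not_linearIndependent_iff] at hdep
  obtain ⟨q, hq, j0, hj0⟩ := hdep
  obtain ⟨N, m, hN, hm⟩ := exists_den q
  have hN0 : (N : ℚ) ≠ 0 := by positivity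
  refine ⟨m, ?_, eq_zero_on_sat Γ (fun g => f (Additive.ofMul (chr m g)))
    (fun g k => map_chr_pow f m g k) fun g hg => ?_⟩
  · intro hm0
    have h1 := hm j0
    rw [hm0, Pi.zero_apply, Int.cast_zero] at h1
    exact (mul_ne_zero hN0 hj0) h1.symm
  · show f (Additive.ofMul (chr m g)) = 0
    rw [map_chr]
    have h2 := LinearMap.congr_fun hq ((1 : ℚ) ⊗ₜ[ℤ] (Additive.ofMul (⟨g, hg⟩ : Γ)))
    rw [LinearMap.sum_apply, LinearMap.zero_apply] at h2
    have h3 : ∀ j, (q j • restrHom Γ f j) ((1 : ℚ) ⊗ₜ[ℤ] (Additive.ofMul (⟨g, hg⟩ : Γ))) =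
        q j * f (Additive.ofMul (g j)) := by
      intro j
      rw [LinearMap.smul_apply, smul_eq_mul, restrHom_tmul]
    simp only [h3] at h2
    have h5 : ∑ j, (m j : ℚ) * f (Additive.ofMul (g j)) =
        N * ∑ j, q j * f (Additive.ofMul (g j)) := by
      rw [Finset.mul_sum]
      refine Finset.sum_congr rfl fun j _ => ?_
      rw [hm j]
      ring
    rw [h5, h2, mul_zero]

/-- finitely many nonzero characters such that each number of infinite order is missed by one -/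
theorem exists_missing_family (Γ : Subgroup (Torus n)) (hfin : FiniteRank Γ) (hn : rank Γ < n) :
    ∃ X : Finset (Fin n → ℤ), (∀ χ ∈ X, χ ≠ 0) ∧
      ∀ u : Qbˣ, u ∉ tors → ∃ χ ∈ X, ∀ g ∈ sat Γ, chr χ g ≠ u := by
  classical
  have hfin' : Module.Finite ℚ (TensorProduct ℤ ℚ (Additive Γ)) := hfin
  set R := LinearMap.range (restrHom Γ) with hR
  have hRfin : Module.Finite ℚ R := inferInstance
  let b := Module.finBasis ℚ R
  have hb : ∀ i, ∃ f, restrHom Γ f = (b i : Fin n → Module.Dual ℚ _) := fun i => (b i).2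
  choose f hf using hb
  choose χ hχ0 hχ using fun i => exists_killing Γ hfin hn (f i)
  obtain ⟨χ0, hχ00, -⟩ := exists_killing Γ hfin hn 0
  refine ⟨insert χ0 (Finset.univ.image χ), ?_, fun u hu => ?_⟩
  · intro c hc
    rw [Finset.mem_insert] at hc
    rcases hc with rfl | hc
    · exact hχ00
    · obtain ⟨i, -, rfl⟩ := Finset.mem_image.mp hc
      exact hχ0 i
  by_contra hcon
  push Not at hcon
  obtain ⟨F, hF⟩ := exists_functional u hu
  have h1 : ∀ i, f i (Additive.ofMul u) = 0 := by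
    intro i
    obtain ⟨g, hg, h⟩ := hcon (χ i) (Finset.mem_insert_of_mem
      (Finset.mem_image_of_mem χ (Finset.mem_univ i)))
    rw [← h]
    exact hχ i g hg
  -- express the restriction of `F`
  set c := b.repr ⟨restrHom Γ F, LinearMap.mem_range_self _ _⟩ with hc
  have h2 : restrHom Γ F = ∑ i, c i • (b i : Fin n → Module.Dual ℚ _) := by
    have h3 := b.sum_repr ⟨restrHom Γ F, LinearMap.mem_range_self _ _⟩
    have h4 := congrArg Subtype.val h3
    rw [Submodule.coe_sum] at h4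
    exact h4.symm
  set F' : Additive Qbˣ →+ ℚ := F - ∑ i, c i • f i with hF'
  have h5 : restrHom Γ F' = 0 := by
    rw [hF', map_sub, map_sum, h2]
    simp only [map_smul, hf]
    rw [sub_self]
  have h6 : ∀ g ∈ sat Γ, F' (Additive.ofMul (chr χ0 g)) = 0 :=
    eq_zero_on_sat Γ (fun g => F' (Additive.ofMul (chr χ0 g)))
      (fun g k => map_chr_pow F' χ0 g k) fun g hg => by
        show F' (Additive.ofMul (chr χ0 g)) = 0
        rw [map_chr]
        refine Finset.sum_eq_zero fun j _ => ?_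
        have h7 := restrHom_tmul Γ F' j g hg
        rw [h5] at h7
        rw [← h7]
        simp
  obtain ⟨g, hg, h⟩ := hcon χ0 (Finset.mem_insert_self _ _)
  have h8 := h6 g hg
  rw [h, hF', AddMonoidHom.sub_apply, hF] at h8
  have h9 : (∑ i, c i • f i) (Additive.ofMul u) = 0 := by
    rw [AddMonoidHom.finsetSum_apply]
    refine Finset.sum_eq_zero fun i _ => ?_
    rw [AddMonoidHom.smul_apply, h1 i, smul_zero]
  rw [h9, sub_zero] at h8
  exact one_ne_zero h8

/-- **Groups of rank smaller than `n`.** If `K(Γ)` contains numbers of infinite order of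
arbitrarily small height, then `Γ` has a bad family of transverse subvarieties. -/
theorem badFamily_of_rank (K : IntermediateField ℚ Qb) (Γ : Subgroup (Torus n))
    (hfin : FiniteRank Γ) (hn : rank Γ < n)
    (hsmall : ∀ ε : ℝ, 0 < ε → ∃ θ : Qbˣ, (θ : Qb) ∈ fieldOf K Γ ∧ θ ∉ tors ∧ h1 θ < ε) :
    HasBadFamily K Γ := by
  classical
  obtain ⟨X, hX0, hX⟩ := exists_missing_family Γ hfin hn
  choose! D hD hfam using fun χ (hχ : χ ≠ 0) => family K Γ χ hχ
  have hDnn : ∀ χ ∈ X, 0 ≤ D χ := fun χ hχ => (hD χ (hX0 χ hχ)).le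
  have hle : ∀ χ ∈ X, D χ ≤ ∑ c ∈ X, D c + 1 := fun χ hχ => by
    have := Finset.single_le_sum hDnn hχ
    linarith
  have hpos : 0 < ∑ c ∈ X, D c + 1 := by
    have := Finset.sum_nonneg hDnn
    linarith
  refine ⟨∑ c ∈ X, D c + 1, hpos, fun ε hε => ?_⟩
  obtain ⟨θ, hθ, hθt, hθh⟩ := hsmall (ε / (∑ c ∈ X, D c + 1)) (by positivity)
  obtain ⟨χ, hχX, hmiss⟩ := hX θ hθt
  obtain ⟨V, hV1, hV2, hV3, hV4, hV5⟩ := hfam χ (hX0 χ hχX) θ hθ hmiss
  refine ⟨V, hV1, hV2, hV3, hV4.trans (hle χ hχX), lt_of_le_of_lt hV5 ?_⟩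
  rw [lt_div_iff₀ hpos] at hθh
  have h2 : D χ * h1 θ ≤ (∑ c ∈ X, D c + 1) * h1 θ :=
    mul_le_mul_of_nonneg_right (hle χ hχX) (h1_nonneg θ)
  linarith

/-- a saturated group of positive rank: the field `K(Γ)` contains small numbers -/
lemma small_of_sat (K : IntermediateField ℚ Qb) (Γ : Subgroup (Torus n))
    (hΓ : sat Γ ⊆ (Γ : Set (Torus n))) (hr : 0 < rank Γ) (ε : ℝ) (hε : 0 < ε) :
    ∃ θ : Qbˣ, (θ : Qb) ∈ fieldOf K Γ ∧ θ ∉ tors ∧ h1 θ < ε := by
  obtain ⟨γ, hγ, hinf⟩ := exists_infinite Γ hr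
  obtain ⟨i, hi⟩ := exists_infinite_coord γ hinf
  obtain ⟨m, hm⟩ := exists_nat_gt (h1 (γ i) / ε)
  obtain ⟨y, hy⟩ := exists_root γ (m + 1) (Nat.succ_pos m)
  have hyΓ : y ∈ Γ := hΓ (root_mem_sat Γ γ y _ (Nat.succ_pos m) (subset_sat Γ hγ) hy)
  have hyi : y i ^ (m + 1) = γ i := by rw [← hy, Pi.pow_apply]
  refine ⟨y i, coord_mem_fieldOf K Γ y hyΓ i, ?_, ?_⟩
  · rintro ⟨k, hk, h⟩
    apply hi
    refine ⟨k, hk, ?_⟩
    rw [← hyi, ← pow_mul, mul_comm, pow_mul, h, one_pow]
  · have hh : ((m : ℝ) + 1) * h1 (y i) = h1 (γ i) := by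
      rw [← hyi, h1_pow]
      push_cast
      ring
    rw [div_lt_iff₀ hε] at hm
    have h3 : ((m : ℝ) + 1) * h1 (y i) < ((m : ℝ) + 1) * ε := by
      rw [hh]
      nlinarith
    exact lt_of_mul_lt_mul_left h3 (by positivity)

end Pool.Agent.W2helper47.RL
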