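import Pool.Agent.W2helper47.RL.Defs

set_option autoImplicit false

/-!
# Characters and monomial maps
-/

namespace Pool.Agent.W2helper47.RL

open MvPolynomial

variable {n : ℕ}

lemma chr_apply (a : Fin n → ℤ) (x : Torus n) : chr a x = ∏ j, x j ^ a j := rfl

lemma chr_add (a b : Fin n → ℤ) (x : Torus n) : chr (a + b) x = chr a x * chr b x := by
  simp [chr_apply, zpow_add, Finset.prod_mul_distrib]

lemma chr_neg (a : Fin n → ℤ) (x : Torus n) : chr (-a) x = (chr a x)⁻¹ := by
  simp [chr_apply]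

lemma chr_sub (a b : Fin n → ℤ) (x : Torus n) : chr (a - b) x = chr a x / chr b x := by
  rw [sub_eq_add_neg, chr_add, chr_neg, div_eq_mul_inv]

lemma prod_zpow_sum {J : Type} (s : Finset J) (f : J → ℤ) (u : Qbˣ) :
    ∏ j ∈ s, u ^ f j = u ^ ∑ j ∈ s, f j := by
  classical
  induction s using Finset.induction_on with
  | empty => simp
  | insert i s hi ih => rw [Finset.prod_insert hi, Finset.sum_insert hi, ih, zpow_add]

lemma chr_zsmul (k : ℤ) (a : Fin n → ℤ) (x : Torus n) : chr (k • a) x = chr a x ^ k := by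
  rw [chr_apply, chr_apply, ← Finset.prod_zpow]
  refine Finset.prod_congr rfl fun j _ => ?_
  rw [Pi.smul_apply, smul_eq_mul, mul_comm, zpow_mul]

lemma aeval_monomial' (s : Fin n →₀ ℕ) (c : Qb) (x : Torus n) :
    aeval (coord x) (monomial s c) = c * (chr (fun j => (s j : ℤ)) x : Qb) := by
  rw [aeval_monomial, chr_apply]
  congr 1
  rw [Finsupp.prod_fintype _ _ (fun _ => pow_zero _)]
  push_cast
  refine Finset.prod_congr rfl fun j _ => ?_
  rw [coord, zpow_natCast]

section

variable {I : Type} [Fintype I]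

/-- a Laurent monomial map between tori -/
noncomputable def mono (c : Torus n) (M : Fin n → I → ℤ) (t : I → Qbˣ) : Torus n :=
  fun k => c k * ∏ i, t i ^ M k i

/-- the composition of a polynomial and a Laurent monomial map is a polynomial up to a monomial -/
lemma exists_lift (c : Torus n) (M : Fin n → I → ℤ) (P : MvPolynomial (Fin n) Qb) :
    ∃ (N : I → ℕ) (Q : MvPolynomial I Qb), ∀ t : I → Qbˣ,
      aeval (fun i => (t i : Qb)) Q = (∏ i, (t i : Qb) ^ N i) * aeval (coord (mono c M t)) P := by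
  induction P using MvPolynomial.induction_on with
  | C a =>
    refine ⟨fun _ => 0, C a, fun t => ?_⟩
    simp
  | add p q hp hq =>
    obtain ⟨N, Q, h⟩ := hp
    obtain ⟨N', Q', h'⟩ := hq
    refine ⟨N + N', (∏ i, X i ^ N' i) * Q + (∏ i, X i ^ N i) * Q', fun t => ?_⟩
    rw [map_add, map_mul, map_mul, h t, h' t, map_add, map_prod, map_prod]
    simp only [map_pow, aeval_X, Pi.add_apply, pow_add, Finset.prod_mul_distrib]
    ring
  | mul_X p k hp =>
    obtain ⟨N, Q, h⟩ := hp
    refine ⟨fun i => N i + (M k i).natAbs,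
      Q * (C (c k : Qb) * ∏ i, X i ^ (M k i + (M k i).natAbs).toNat), fun t => ?_⟩
    rw [map_mul, h t, map_mul, map_mul, map_prod, aeval_X, aeval_C]
    have e : ∏ i, (t i : Qb) ^ (M k i + (M k i).natAbs).toNat =
        (∏ i, (t i : Qb) ^ (M k i)) * ∏ i, (t i : Qb) ^ (M k i).natAbs := by
      rw [← Finset.prod_mul_distrib]
      refine Finset.prod_congr rfl fun i _ => ?_
      rw [← zpow_natCast, ← zpow_natCast, ← zpow_add₀ (Units.ne_zero _)]
      congr 1
      omega
    have e2 : coord (mono c M t) k = (c k : Qb) * ∏ i, (t i : Qb) ^ (M k i) := by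
      simp [coord, mono]
    simp only [map_pow, aeval_X, pow_add, Finset.prod_mul_distrib, e, e2,
      Algebra.algebraMap_self, RingHom.id_apply]
    ring

omit [Fintype I] in
lemma eq_zero_of_units (A : Set Qbˣ) (hA : A.Infinite) (Q : MvPolynomial I Qb)
    (h : ∀ t : I → Qbˣ, (∀ i, t i ∈ A) → aeval (fun i => (t i : Qb)) Q = 0) : Q = 0 := by
  classical
  refine MvPolynomial.funext_set (fun _ => (Units.val '' A : Set Qb))
    (fun _ => hA.image (fun _ _ _ _ h => Units.ext h)) fun x hx => ?_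
  have hx' : ∀ i, ∃ u ∈ A, (u : Qb) = x i := fun i => hx i (Set.mem_univ i)
  choose u hu hux using hx'
  have h1 := h u hu
  have h2 : (fun i => (u i : Qb)) = x := funext hux
  rw [h2] at h1
  rw [map_zero, ← h1, aeval_eq_eval]

lemma infinite_units : (Set.univ : Set Qbˣ).Infinite := by
  have h1 : ({0}ᶜ : Set Qb).Infinite := (Set.finite_singleton (0 : Qb)).infinite_compl
  intro h2
  refine h1 ((h2.image Units.val).subset fun x hx => ?_)
  exact ⟨Units.mk0 x hx, Set.mem_univ _, rfl⟩

/-- a polynomial which vanishes at the images of the points with coordinates in an infinite set -/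
lemma vanish_of_dense (A : Set Qbˣ) (hA : A.Infinite) (c : Torus n) (M : Fin n → I → ℤ)
    (P : MvPolynomial (Fin n) Qb)
    (h : ∀ t : I → Qbˣ, (∀ i, t i ∈ A) → aeval (coord (mono c M t)) P = 0) (t : I → Qbˣ) :
    aeval (coord (mono c M t)) P = 0 := by
  obtain ⟨N, Q, hQ⟩ := exists_lift c M P
  have hQ0 : Q = 0 := eq_zero_of_units A hA Q fun t ht => by rw [hQ, h t ht, mul_zero]
  have h1 := hQ t
  rw [hQ0, map_zero] at h1
  rcases mul_eq_zero.mp h1.symm with h2 | h2
  · exact absurd h2 (Finset.prod_ne_zero_iff.mpr fun i _ => pow_ne_zero _ (Units.ne_zero _))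
  · exact h2

lemma vanish_or (c : Torus n) (M : Fin n → I → ℤ) (P P' : MvPolynomial (Fin n) Qb)
    (h : ∀ t : I → Qbˣ, aeval (coord (mono c M t)) P = 0 ∨ aeval (coord (mono c M t)) P' = 0) :
    (∀ t : I → Qbˣ, aeval (coord (mono c M t)) P = 0) ∨
      ∀ t : I → Qbˣ, aeval (coord (mono c M t)) P' = 0 := by
  obtain ⟨N, Q, hQ⟩ := exists_lift c M P
  obtain ⟨N', Q', hQ'⟩ := exists_lift c M P'
  have h0 : Q * Q' = 0 := by
    refine eq_zero_of_units Set.univ infinite_units _ fun t _ => ?_
    rw [map_mul, hQ, hQ']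
    rcases h t with h1 | h1 <;> rw [h1] <;> ring
  have key : ∀ (N : I → ℕ) (t : I → Qbˣ), (∏ i, (t i : Qb) ^ N i) ≠ 0 := fun N t =>
    Finset.prod_ne_zero_iff.mpr fun i _ => pow_ne_zero _ (Units.ne_zero _)
  rcases mul_eq_zero.mp h0 with h1 | h1
  · left
    intro t
    have h2 := hQ t
    rw [h1, map_zero] at h2
    exact (mul_eq_zero.mp h2.symm).resolve_left (key N t)
  · right
    intro t
    have h2 := hQ' t
    rw [h1, map_zero] at h2
    exact (mul_eq_zero.mp h2.symm).resolve_left (key N' t)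

/-- the image of a monomial map, if closed, is a subvariety -/
lemma subvariety_range (c : Torus n) (M : Fin n → I → ℤ) (hcl : Closed (Set.range (mono c M))) :
    IsSubvariety (Set.range (mono c M)) := by
  refine ⟨hcl, ⟨_, ⟨fun _ => 1, rfl⟩⟩, ?_⟩
  rintro Z Z' ⟨S, rfl⟩ ⟨S', rfl⟩ hVZ
  by_contra hcon
  rw [not_or] at hcon
  obtain ⟨h1, h2⟩ := hcon
  rw [Set.not_subset] at h1 h2
  obtain ⟨x, ⟨t, rfl⟩, hx⟩ := h1
  obtain ⟨y, ⟨s, rfl⟩, hy⟩ := h2
  simp only [Set.mem_ofPred_eq, not_forall] at hx hy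
  obtain ⟨P, hP, hPx⟩ := hx
  obtain ⟨P', hP', hPy⟩ := hy
  rcases vanish_or c M P P' (fun r => by
    rcases hVZ ⟨r, rfl⟩ with h3 | h3
    · exact Or.inl (h3 P hP)
    · exact Or.inr (h3 P' hP')) with h4 | h4
  · exact hPx (h4 t)
  · exact hPy (h4 s)

end

/-- the binomial hypersurface -/
def hyp (χ : Fin n → ℤ) (θ : Qbˣ) : Set (Torus n) := {x | chr χ x = θ}

/-- the exponents of the standard parametrisation of `hyp χ θ` -/
def kos (χ : Fin n → ℤ) (k : Fin n) (p : Fin n × Fin n) : ℤ :=
  (if k = p.1 then χ p.2 else 0) - (if k = p.2 then χ p.1 else 0)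

/-- the base point of the standard parametrisation of `hyp χ θ` -/
noncomputable def base (a : Fin n → ℤ) (θ : Qbˣ) : Torus n := fun k => θ ^ a k

lemma hyp_eq_range (χ a : Fin n → ℤ) (ha : ∑ j, a j * χ j = 1) (θ : Qbˣ) :
    hyp χ θ = Set.range (mono (base a θ) (kos χ)) := by
  classical
  ext x
  constructor
  · intro hx
    have hx' : chr χ x = θ := hx
    refine ⟨fun p => x p.1 ^ a p.2, ?_⟩
    funext k
    rw [mono, base]
    have e1 : ∀ p : Fin n × Fin n, (x p.1 ^ a p.2) ^ kos χ k p =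
        (x p.1 ^ a p.2) ^ (if k = p.1 then χ p.2 else 0) /
          (x p.1 ^ a p.2) ^ (if k = p.2 then χ p.1 else 0) := fun p => by
      rw [kos, zpow_sub, div_eq_mul_inv]
    simp only [e1, Finset.prod_div_distrib, Fintype.prod_prod_type]
    have e2 : ∏ i, ∏ j, (x i ^ a j) ^ (if k = i then χ j else 0) = x k := by
      rw [Finset.prod_eq_single k]
      · simp only [if_true]
        have : ∀ j, (x k ^ a j) ^ χ j = x k ^ (a j * χ j) := fun j => (zpow_mul _ _ _).symm
        simp only [this]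
        rw [prod_zpow_sum, ha, zpow_one]
      · intro i _ hi
        simp [Ne.symm hi]
      · simp
    have e3 : ∏ i, ∏ j, (x i ^ a j) ^ (if k = j then χ i else 0) = θ ^ a k := by
      have : ∀ i, ∏ j, (x i ^ a j) ^ (if k = j then χ i else 0) = (x i ^ χ i) ^ a k := fun i => by
        rw [Finset.prod_eq_single k]
        · simp only [if_true]
          rw [← zpow_mul, ← zpow_mul, mul_comm]
        · intro j _ hj
          simp [Ne.symm hj]
        · simp
      simp only [this]
      rw [Finset.prod_zpow, ← chr_apply, hx']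
    rw [e2, e3]
    simp
  · rintro ⟨t, rfl⟩
    show chr χ (mono (base a θ) (kos χ) t) = θ
    rw [chr_apply]
    simp only [mono, base, mul_zpow, Finset.prod_mul_distrib]
    have e1 : ∏ k, (θ ^ a k) ^ χ k = θ := by
      have : ∀ k, (θ ^ a k) ^ χ k = θ ^ (a k * χ k) := fun k => (zpow_mul _ _ _).symm
      simp only [this]
      rw [prod_zpow_sum, ha, zpow_one]
    have e2 : ∏ k, (∏ p, t p ^ kos χ k p) ^ χ k = 1 := by
      simp only [← Finset.prod_zpow]
      rw [Finset.prod_comm]
      refine Finset.prod_eq_one fun p _ => ?_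
      have : ∀ k, (t p ^ kos χ k p) ^ χ k = t p ^ (kos χ k p * χ k) := fun k =>
        (zpow_mul _ _ _).symm
      simp only [this]
      rw [prod_zpow_sum]
      have : ∑ k, kos χ k p * χ k = 0 := by
        simp only [kos, sub_mul, Finset.sum_sub_distrib, ite_mul, zero_mul, Finset.sum_ite_eq',
          Finset.mem_univ, if_true]
        ring
      rw [this, zpow_zero]
    rw [e1, e2, mul_one]

end Pool.Agent.W2helper47.RL
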