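import Pool.Agent.W2helper47.RL.Equiv

set_option autoImplicit false

/-!
# Saturated groups of small positive rank; an explicit group
-/

namespace Pool.Agent.W2helper47.RL

open TensorProduct

variable {n : ℕ}

/-- a rational valued homomorphism which does not vanish at a given element of infinite order -/
lemma exists_functional (u : Qbˣ) (hu : u ∉ tors) :
    ∃ f : Additive Qbˣ →+ ℚ, f (Additive.ofMul u) = 1 := by
  let i : ℤ →+ Additive Qbˣ := (zmultiplesHom (Additive Qbˣ)) (Additive.ofMul u)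
  have hi : Function.Injective i := by
    rw [injective_iff_map_eq_zero]
    intro m hm
    have h1 : u ^ m = 1 := by
      have h2 : m • Additive.ofMul u = 0 := hm
      exact h2
    by_contra hm0
    apply hu
    refine ⟨m.natAbs, Int.natAbs_pos.mpr hm0, ?_⟩
    obtain ⟨r, hr | hr⟩ := m.eq_nat_or_neg
    · rw [hr] at h1 ⊢
      rw [Int.natAbs_natCast, ← zpow_natCast]
      exact h1
    · rw [hr] at h1 ⊢
      rw [Int.natAbs_neg, Int.natAbs_natCast, ← zpow_natCast]
      rwa [zpow_neg, inv_eq_one] at h1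
  obtain ⟨h, hh⟩ := Module.Baer.extension_property_addMonoidHom (Module.Baer.of_divisible ℚ) i hi
    (Int.castAddHom ℚ)
  refine ⟨h, ?_⟩
  have h1 := DFunLike.congr_fun hh 1
  simp only [AddMonoidHom.comp_apply] at h1
  have h2 : i 1 = Additive.ofMul u := one_zsmul _
  rw [h2] at h1
  rw [h1]
  simp

lemma exists_infinite_coord (g : Torus n) (hg : ∀ m : ℕ, 0 < m → g ^ m ≠ 1) :
    ∃ i, g i ∉ tors := by
  classical
  by_contra hcon
  push Not at hcon
  choose m hm h using hcon
  refine hg (∏ i, m i) (Finset.prod_pos fun i _ => hm i) (funext fun i => ?_)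
  rw [Pi.pow_apply, ← Finset.mul_prod_erase _ _ (Finset.mem_univ i), pow_mul, h i, one_pow,
    Pi.one_apply]

lemma exists_infinite (Γ : Subgroup (Torus n)) (hr : 0 < rank Γ) :
    ∃ g ∈ Γ, ∀ m : ℕ, 0 < m → g ^ m ≠ 1 := by
  by_contra hcon
  push Not at hcon
  have h1 : Subsingleton (TensorProduct ℤ ℚ (Additive Γ)) := by
    refine ⟨fun x y => ?_⟩
    have h0 : ∀ z : TensorProduct ℤ ℚ (Additive Γ), z = 0 := by
      intro z
      induction z using TensorProduct.induction_on with
      | zero => rfl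
      | add x y hx hy => rw [hx, hy, add_zero]
      | tmul q g =>
        obtain ⟨m, hm, h⟩ := hcon (Additive.toMul g : Γ).1 (Additive.toMul g : Γ).2
        have h2 : (m : ℤ) • g = 0 := by
          have h3 : (Additive.toMul g : Γ) ^ m = 1 := Subtype.ext h
          have h4 : m • g = 0 := h3
          rw [natCast_zsmul]
          exact h4
        have hm0 : (m : ℚ) ≠ 0 := by positivity
        have h5 : q = (m : ℤ) • (q / m) := by
          rw [zsmul_eq_mul]
          push_cast
          field_simp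
        rw [h5, TensorProduct.smul_tmul, h2, TensorProduct.tmul_zero]
    rw [h0 x, h0 y]
  have h2 : rank Γ = 0 := by
    rw [rank]
    exact Module.finrank_zero_of_subsingleton
  omega

/-- the pairing of a coordinate of `Γ` with a functional -/
noncomputable def coordFun (Γ : Subgroup (Torus n)) (f : Additive Qbˣ →+ ℚ) (j : Fin n) :
    Additive Γ →+ ℚ :=
  f.comp (MonoidHom.toAdditive ((Pi.evalMonoidHom (fun _ => Qbˣ) j).comp Γ.subtype))

lemma coordFun_apply (Γ : Subgroup (Torus n)) (f : Additive Qbˣ →+ ℚ) (j : Fin n) (g : Γ) :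
    coordFun Γ f j (Additive.ofMul g) = f (Additive.ofMul (g.1 j)) := rfl

lemma map_chr (f : Additive Qbˣ →+ ℚ) (χ : Fin n → ℤ) (g : Torus n) :
    f (Additive.ofMul (chr χ g)) = ∑ j, (χ j : ℚ) * f (Additive.ofMul (g j)) := by
  rw [chr_apply, ofMul_prod, map_sum]
  refine Finset.sum_congr rfl fun j _ => ?_
  rw [ofMul_zpow, map_zsmul, zsmul_eq_mul]

/-- a common denominator -/
lemma exists_den (q : Fin n → ℚ) : ∃ (N : ℕ) (m : Fin n → ℤ), 0 < N ∧ ∀ j, (m j : ℚ) = N * q j := by
  classical
  refine ⟨∏ j, (q j).den, fun j => (∏ i ∈ Finset.univ.erase j, (q i).den : ℕ) * (q j).num,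
    Finset.prod_pos fun j _ => (q j).den_pos, fun j => ?_⟩
  rw [← Finset.mul_prod_erase _ _ (Finset.mem_univ j)]
  push_cast
  have h1 : (q j) * (q j).den = (q j).num := Rat.mul_den_eq_num (q j)
  rw [← h1]
  ring

/-- on a saturated group of rank smaller than `n`, some nonzero character does not take some value
which is a coordinate of a point of the group -/
theorem exists_missing_value (Γ : Subgroup (Torus n)) (hfin : FiniteRank Γ) (h0 : 0 < rank Γ)
    (hn : rank Γ < n) : ∃ χ : Fin n → ℤ, χ ≠ 0 ∧ ∃ γ ∈ Γ, ∃ i, ∀ g ∈ Γ, chr χ g ≠ γ i := by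
  obtain ⟨γ, hγ, hinf⟩ := exists_infinite Γ h0
  obtain ⟨i, hi⟩ := exists_infinite_coord γ hinf
  obtain ⟨f, hf⟩ := exists_functional (γ i) hi
  have hfin' : Module.Finite ℚ (TensorProduct ℤ ℚ (Additive Γ)) := hfin
  let φ : Fin n → Module.Dual ℚ (TensorProduct ℤ ℚ (Additive Γ)) := fun j =>
    LinearMap.liftBaseChange ℚ (coordFun Γ f j).toIntLinearMap
  have hdep : ¬ LinearIndependent ℚ φ := by
    intro hli
    have h1 := hli.fintype_card_le_finrank
    rw [Subspace.dual_finrank_eq, Fintype.card_fin] at h1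
    have h2 : Module.finrank ℚ (TensorProduct ℤ ℚ (Additive Γ)) = rank Γ := rfl
    omega
  rw [Fintype.not_linearIndependent_iff] at hdep
  obtain ⟨q, hq, j0, hj0⟩ := hdep
  obtain ⟨N, m, hN, hm⟩ := exists_den q
  have hN0 : (N : ℚ) ≠ 0 := by positivity
  refine ⟨m, ?_, γ, hγ, i, fun g hg hge => ?_⟩
  · intro hm0
    have h1 := hm j0
    rw [hm0, Pi.zero_apply, Int.cast_zero] at h1
    exact (mul_ne_zero hN0 hj0) h1.symm
  · have h1 := map_chr f m g
    rw [hge, hf] at h1
    have h2 := LinearMap.congr_fun hq ((1 : ℚ) ⊗ₜ[ℤ] (Additive.ofMul (⟨g, hg⟩ : Γ)))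
    rw [LinearMap.sum_apply, LinearMap.zero_apply] at h2
    have h3 : ∀ j, (q j • φ j) ((1 : ℚ) ⊗ₜ[ℤ] (Additive.ofMul (⟨g, hg⟩ : Γ))) =
        q j * f (Additive.ofMul (g j)) := by
      intro j
      rw [LinearMap.smul_apply, smul_eq_mul]
      congr 1
      show LinearMap.liftBaseChange ℚ (coordFun Γ f j).toIntLinearMap _ = _
      rw [LinearMap.liftBaseChange_tmul, one_smul]
      rfl
    simp only [h3] at h2
    have h4 : ∑ j, (m j : ℚ) * f (Additive.ofMul (g j)) = 0 := by
      have h5 : ∑ j, (m j : ℚ) * f (Additive.ofMul (g j)) =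
          N * ∑ j, q j * f (Additive.ofMul (g j)) := by
        rw [Finset.mul_sum]
        refine Finset.sum_congr rfl fun j _ => ?_
        rw [hm j]
        ring
      rw [h5, h2, mul_zero]
    rw [h4] at h1
    exact one_ne_zero h1

end Pool.Agent.W2helper47.RL
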