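import Pool.Agent.W2helper47.RL.Deg
import Pool.Agent.W2helper47.RL.Ess

set_option autoImplicit false

/-!
# Transversality of binomial hypersurfaces
-/

namespace Pool.Agent.W2helper47.RL

open MvPolynomial Filter Topology

variable {n : ℕ}

/-- a subgroup on which a nonzero polynomial vanishes lies in the kernel of a nonzero character -/
lemma exists_chr (B : Subgroup (Torus n)) (P : MvPolynomial (Fin n) Qb) (hP : P ≠ 0)
    (hB : ∀ b ∈ B, aeval (coord b) P = 0) :
    ∃ c : Fin n → ℤ, c ≠ 0 ∧ ∀ b ∈ B, chr c b = 1 := by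
  by_contra hcon
  push Not at hcon
  let ψ : (Fin n →₀ ℕ) → (B →* Qb) := fun s =>
    (Units.coeHom Qb).comp ((chr fun j => (s j : ℤ)).comp B.subtype)
  have hinj : Function.Injective ψ := by
    intro s s' h
    by_contra hne
    have h1 : (fun j => (s j : ℤ)) - (fun j => (s' j : ℤ)) ≠ 0 := by
      intro h2
      apply hne
      ext j
      have := congrFun h2 j
      simp only [Pi.sub_apply, Pi.zero_apply] at this
      omega
    obtain ⟨b, hb, hb1⟩ := hcon _ h1
    apply hb1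
    rw [chr_sub, div_eq_one]
    have h3 := DFunLike.congr_fun h ⟨b, hb⟩
    exact Units.ext h3
  have h1 := (linearIndependent_monoidHom B Qb).comp ψ hinj
  rw [linearIndependent_iff'] at h1
  have h2 := h1 P.support (fun s => P.coeff s) (by
    funext b
    have h3 := hB b.1 b.2
    rw [P.as_sum, map_sum] at h3
    rw [Finset.sum_apply, Pi.zero_apply, ← h3]
    refine Finset.sum_congr rfl fun s _ => ?_
    rw [aeval_monomial']
    rfl)
  apply hP
  ext s
  rw [coeff_zero]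
  by_cases hs : s ∈ P.support
  · exact h2 s hs
  · simpa using hs

lemma chr_base (χ a : Fin n → ℤ) (ha : ∑ j, a j * χ j = 1) (θ : Qbˣ) :
    chr χ (base a θ) = θ := by
  rw [chr_apply]
  have : ∀ k, base a θ k ^ χ k = θ ^ (a k * χ k) := fun k => (zpow_mul _ _ _).symm
  simp only [this]
  rw [prod_zpow_sum, ha, zpow_one]

lemma base_pow (a : Fin n → ℤ) (θ : Qbˣ) (m : ℕ) (h : θ ^ m = 1) : base a θ ^ m = 1 := by
  funext k
  rw [Pi.pow_apply, base, ← zpow_natCast, ← zpow_mul, mul_comm, zpow_mul, zpow_natCast, h,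
    one_zpow, Pi.one_apply]

lemma sat_mul_torsion (Γ : Subgroup (Torus n)) (g t : Torus n) (hg : g ∈ sat Γ) (m : ℕ)
    (hm : 0 < m) (ht : t ^ m = 1) : g * t ∈ sat Γ := by
  obtain ⟨k, hk, hgk⟩ := hg
  refine ⟨k * m, Nat.mul_pos hk hm, ?_⟩
  rw [mul_pow, pow_mul, mul_comm k m, pow_mul t, ht, one_pow, mul_one]
  exact Γ.pow_mem hgk m

lemma transverse_hyp (Γ : Subgroup (Torus n)) (χ a : Fin n → ℤ) (ha : ∑ j, a j * χ j = 1)
    (θ : Qbˣ) (hθ : ∀ g ∈ sat Γ, chr χ g ≠ θ) : Transverse Γ (hyp χ θ) := by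
  rintro T ⟨B, γ, ⟨⟨S, hS⟩, _, _⟩, hγ, rfl⟩ hVT
  by_cases hB : ∀ x, x ∈ B
  · ext x
    simp only [Set.mem_ofPred_eq, Set.mem_univ, iff_true]
    exact ⟨γ⁻¹ * x, hB _, by rw [mul_inv_cancel_left]⟩
  exfalso
  push Not at hB
  obtain ⟨y, hy⟩ := hB
  have hy' : y ∉ (B : Set (Torus n)) := hy
  rw [hS] at hy'
  simp only [Set.mem_ofPred_eq, not_forall] at hy'
  obtain ⟨P, hPS, hPy⟩ := hy'
  have hP0 : P ≠ 0 := by
    rintro rfl
    exact hPy (map_zero _)
  obtain ⟨c, hc0, hc⟩ := exists_chr B P hP0 fun b hb => by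
    have hb' : b ∈ (B : Set (Torus n)) := hb
    rw [hS] at hb'
    exact hb' P hPS
  have hv : base a θ ∈ hyp χ θ := chr_base χ a ha θ
  obtain ⟨b0, hb0, hb0e⟩ := hVT hv
  have hker : ∀ x : Torus n, chr χ x = 1 → chr c x = 1 := by
    intro x hx
    have h1 : base a θ * x ∈ hyp χ θ := by
      show chr χ (base a θ * x) = θ
      rw [map_mul, chr_base χ a ha θ, hx, mul_one]
    obtain ⟨b1, hb1, hb1e⟩ := hVT h1
    have h2 : x = b0⁻¹ * b1 := by
      rw [hb0e, mul_assoc] at hb1e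
      have h3 := mul_left_cancel hb1e
      rw [← h3, inv_mul_cancel_left]
    rw [h2]
    exact hc _ (B.mul_mem (B.inv_mem hb0) hb1)
  have hck := exists_zsmul χ a c ha hker
  set k := ∑ j, a j * c j with hk
  have hk0 : k ≠ 0 := by
    intro h0
    rw [h0, zero_smul] at hck
    exact hc0 hck
  have h3 : chr c (base a θ) = chr c γ := by
    rw [hb0e, map_mul, hc b0 hb0, mul_one]
  rw [hck, chr_zsmul, chr_zsmul, chr_base χ a ha θ] at h3
  -- `θ / χ(γ)` is a root of unity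
  have h4 : (θ / chr χ γ) ^ k.natAbs = 1 := by
    have h5 : (θ / chr χ γ) ^ k = 1 := by rw [div_zpow, h3, div_self']
    obtain ⟨m, hm | hm⟩ := k.eq_nat_or_neg
    · rw [hm] at h5 ⊢
      rw [Int.natAbs_natCast, ← zpow_natCast]
      exact h5
    · rw [hm] at h5 ⊢
      rw [Int.natAbs_neg, Int.natAbs_natCast, ← zpow_natCast]
      rwa [zpow_neg, inv_eq_one] at h5
  refine hθ (γ * base a (θ / chr χ γ)) (sat_mul_torsion Γ _ _ hγ k.natAbs
    (Int.natAbs_pos.mpr hk0) (base_pow a _ _ h4)) ?_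
  rw [map_mul, chr_base χ a ha, mul_div_cancel]

end Pool.Agent.W2helper47.RL
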